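import Pool.Agent.Lib.MP_9f6534_gt.Arc

open Real MeasureTheory Set Filter Topology

namespace Pool.MP9f6534

/-- Comparison for `y'' ≥ 4 y` on `[-s, s]`. -/
theorem two_ends {s : ℝ} (hs : 0 < s) {y y' y'' : ℝ → ℝ} (h1 : ∀ t, HasDerivAt y (y' t) t)
    (h2 : ∀ t, HasDerivAt y' (y'' t) t) (h3 : ∀ t ∈ Icc (-s) s, 4 * y t ≤ y'' t) :
    2 * (y s * cosh (4 * s) - y (-s)) ≤ y' s * sinh (4 * s) ∧
    2 * (y (-s) * cosh (4 * s) - y s) ≤ -y' (-s) * sinh (4 * s) := by
  have hlin : ∀ t : ℝ, HasDerivAt (fun t => 2 * (t + s)) 2 t := fun t => by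
    simpa using ((hasDerivAt_id t).add_const s).const_mul 2
  have hlin' : ∀ t : ℝ, HasDerivAt (fun t => 2 * (s - t)) (-2) t := fun t => by
    simpa using ((hasDerivAt_id t).const_sub s).const_mul 2
  have hV : ∀ t, HasDerivAt (fun t => y' t * sinh (2 * (t + s)) - 2 * (y t * cosh (2 * (t + s))))
      ((y'' t - 4 * y t) * sinh (2 * (t + s))) t := by
    intro t
    have := ((h2 t).mul (hlin t).sinh).sub (((h1 t).mul (hlin t).cosh).const_mul 2)
    refine this.congr_deriv ?_
    ring
  have hU : ∀ t, HasDerivAt (fun t => y' t * sinh (2 * (s - t)) + 2 * (y t * cosh (2 * (s - t))))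
      ((y'' t - 4 * y t) * sinh (2 * (s - t))) t := by
    intro t
    have := ((h2 t).mul (hlin' t).sinh).add (((h1 t).mul (hlin' t).cosh).const_mul 2)
    refine this.congr_deriv ?_
    ring
  have hss : -s ≤ s := by linarith
  have mV : MonotoneOn (fun t => y' t * sinh (2 * (t + s)) - 2 * (y t * cosh (2 * (t + s))))
      (Icc (-s) s) := by
    apply monotoneOn_of_deriv_nonneg (convex_Icc _ _)
    · exact fun t _ => (hV t).continuousAt.continuousWithinAt
    · exact fun t _ => (hV t).differentiableAt.differentiableWithinAt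
    · intro t ht
      rw [interior_Icc] at ht
      rw [(hV t).deriv]
      apply mul_nonneg
      · have := h3 t ⟨ht.1.le, ht.2.le⟩
        linarith
      · rw [sinh_nonneg_iff]; linarith [ht.1]
  have mU : MonotoneOn (fun t => y' t * sinh (2 * (s - t)) + 2 * (y t * cosh (2 * (s - t))))
      (Icc (-s) s) := by
    apply monotoneOn_of_deriv_nonneg (convex_Icc _ _)
    · exact fun t _ => (hU t).continuousAt.continuousWithinAt
    · exact fun t _ => (hU t).differentiableAt.differentiableWithinAt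
    · intro t ht
      rw [interior_Icc] at ht
      rw [(hU t).deriv]
      apply mul_nonneg
      · have := h3 t ⟨ht.1.le, ht.2.le⟩
        linarith
      · rw [sinh_nonneg_iff]; linarith [ht.2]
  have a := mV (left_mem_Icc.2 hss) (right_mem_Icc.2 hss) hss
  have b := mU (left_mem_Icc.2 hss) (right_mem_Icc.2 hss) hss
  simp only at a b
  have e1 : 2 * (s + s) = 4 * s := by ring
  have e2 : 2 * (-s + s) = 0 := by ring
  have e3 : 2 * (s - s) = 0 := by ring
  have e4 : 2 * (s - -s) = 4 * s := by ring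
  rw [e1, e2, sinh_zero, cosh_zero] at a
  rw [e3, e4, sinh_zero, cosh_zero] at b
  constructor <;> linarith

/-- average over the circle -/
noncomputable def av (f : ℝ → ℝ) : ℝ := (2 * π)⁻¹ * ∫ θ in (0 : ℝ)..(2 * π), f θ

theorem av_add {f g : ℝ → ℝ} (hf : Continuous f) (hg : Continuous g) :
    av (fun θ => f θ + g θ) = av f + av g := by
  unfold av
  rw [intervalIntegral.integral_add (hf.intervalIntegrable _ _) (hg.intervalIntegrable _ _)]
  ring

theorem hasDerivAt_av {F F' : ℝ → ℝ → ℝ} (hF : ∀ t, Continuous (F t))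
    (hF' : Continuous (Function.uncurry F')) (hd : ∀ t θ, HasDerivAt (fun τ => F τ θ) (F' t θ) t)
    (t : ℝ) : HasDerivAt (fun t => av (F t)) (av (F' t)) t :=
  (hasDerivAt_integral_cont hF hF' hd t).const_mul _

variable {s : ℝ} {x xt xtt xr xrr : ℝ → ℝ → ℝ}

theorem Comp.var1 (h : Comp s x xt xtt xr xrr) (t : ℝ) :
    HasDerivAt (fun t => av (fun θ => x t θ ^ 2) - av (x t) ^ 2)
      (2 * (av (fun θ => x t θ * xt t θ) - av (x t) * av (xt t))) t := by
  have h1 : HasDerivAt (fun t => av (fun θ => x t θ ^ 2)) (av (fun θ => 2 * x t θ * xt t θ)) t := by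
    refine hasDerivAt_av (F := fun t θ => x t θ ^ 2) (F' := fun t θ => 2 * x t θ * xt t θ) ?_ ?_ ?_ t
    · exact fun t => (cont_slice h.cx t).pow 2
    · exact (continuous_const.mul h.cx).mul h.cxt
    · intro t θ
      have := (h.dxt t θ).pow 2
      refine this.congr_deriv ?_
      simp
  have h2 : HasDerivAt (fun t => av (x t)) (av (xt t)) t :=
    hasDerivAt_av (cont_slice h.cx) h.cxt h.dxt t
  refine (h1.sub (h2.pow 2)).congr_deriv ?_
  have : av (fun θ => 2 * x t θ * xt t θ) = 2 * av (fun θ => x t θ * xt t θ) := by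
    unfold av
    simp_rw [mul_assoc (2 : ℝ)]
    rw [intervalIntegral.integral_const_mul]
    ring
  rw [this]
  ring

theorem Comp.var2 (h : Comp s x xt xtt xr xrr) (t : ℝ) :
    HasDerivAt (fun t => 2 * (av (fun θ => x t θ * xt t θ) - av (x t) * av (xt t)))
      (2 * (av (fun θ => xt t θ ^ 2) + av (fun θ => x t θ * xtt t θ) - av (xt t) ^ 2 -
        av (x t) * av (xtt t))) t := by
  have h1 : HasDerivAt (fun t => av (fun θ => x t θ * xt t θ))
      (av (fun θ => xt t θ ^ 2 + x t θ * xtt t θ)) t := by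
    refine hasDerivAt_av (F := fun t θ => x t θ * xt t θ)
      (F' := fun t θ => xt t θ ^ 2 + x t θ * xtt t θ) ?_ ?_ ?_ t
    · exact fun t => (cont_slice h.cx t).mul (cont_slice h.cxt t)
    · exact (h.cxt.pow 2).add (h.cx.mul h.cxtt)
    · intro t θ
      have := (h.dxt t θ).mul (h.dxtt t θ)
      refine this.congr_deriv ?_
      ring
  have h2 : HasDerivAt (fun t => av (x t)) (av (xt t)) t :=
    hasDerivAt_av (cont_slice h.cx) h.cxt h.dxt t
  have h3 : HasDerivAt (fun t => av (xt t)) (av (xtt t)) t :=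
    hasDerivAt_av (cont_slice h.cxt) h.cxtt h.dxtt t
  refine ((h1.sub (h2.mul h3)).const_mul 2).congr_deriv ?_
  have e : av (fun θ => xt t θ ^ 2 + x t θ * xtt t θ) =
      av (fun θ => xt t θ ^ 2) + av (fun θ => x t θ * xtt t θ) :=
    av_add ((cont_slice h.cxt t).pow 2) ((cont_slice h.cx t).mul (cont_slice h.cxtt t))
  rw [e]
  ring

/-- On the cylinder: integration by parts on a slice. -/
theorem Comp.slice (h : Comp s x xt xtt xr xrr) {t : ℝ} (ht : t ∈ Icc (-s) s) :
    av (fun θ => x t θ * xtt t θ) = av (fun θ => xr t θ ^ 2) ∧ av (xtt t) = 0 := by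
  have hx := cont_slice h.cx t
  have hxr := cont_slice h.cxr t
  have hxrr := cont_slice h.cxrr t
  have hparts := intervalIntegral.integral_mul_deriv_eq_deriv_mul (a := 0) (b := 2 * π)
    (u := fun θ => x t θ) (v := fun θ => xr t θ) (u' := fun θ => xr t θ) (v' := fun θ => xrr t θ)
    (fun θ _ => h.dxr t θ) (fun θ _ => h.dxrr t θ)
    (hxr.intervalIntegrable _ _) (hxrr.intervalIntegrable _ _)
  rw [h.per t, h.perr t, sub_self, zero_sub] at hparts
  have e : ∀ θ, xtt t θ = -xrr t θ := fun θ => by linarith [h.harm t ht θ]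
  unfold av
  constructor
  · congr 1
    simp_rw [e, mul_neg]
    rw [intervalIntegral.integral_neg, hparts, neg_neg]
    apply intervalIntegral.integral_congr
    intro θ _
    simp only; ring
  · have : (∫ θ in (0 : ℝ)..(2 * π), xtt t θ) = 0 := by
      simp_rw [e]
      rw [intervalIntegral.integral_neg, intervalIntegral.integral_eq_sub_of_hasDerivAt
        (fun θ _ => h.dxrr t θ) (hxrr.intervalIntegrable _ _), h.perr t, sub_self, neg_zero]
    rw [this, mul_zero]

theorem Comp.wirt (h : Comp s x xt xtt xr xrr) (t : ℝ) :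
    av (fun θ => x t θ ^ 2) - av (x t) ^ 2 ≤ av (fun θ => xr t θ ^ 2) :=
  Pool.MP9f6534.wirt (h.dxr t) (cont_slice h.cxr t) (h.per t)

end Pool.MP9f6534
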