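import Pool.Agent.Lib.MP_9f6534_gt.Scalar

open Real

namespace Pool.MP9f6534

theorem cosh_poly (r : ℝ) : 1 + r ^ 2 / 2 + r ^ 4 / 24 + r ^ 6 / 720 ≤ cosh r := by
  have h := r.hasSum_cosh
  have h2 := sum_le_hasSum (Finset.range 4) (fun n _ =>
    div_nonneg (by rw [pow_mul]; positivity) (by positivity)) h
  simp only [Finset.sum_range_succ, Finset.sum_range_zero] at h2
  norm_num [Nat.factorial] at h2
  linarith

theorem cosh_sq_poly (s : ℝ) : 1 + s ^ 2 + s ^ 4 / 3 + 2 * s ^ 6 / 45 ≤ cosh s ^ 2 := by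
  have h := cosh_poly (2 * s)
  rw [cosh_two_mul, sinh_sq] at h
  nlinarith

theorem root_le : ∀ {k : ℝ}, 0 < k → k * sinh k = cosh k → k ≤ 1.21 := by
  intro k hk0 hk
  by_contra hcon
  push Not at hcon
  have h1 := root_strictMono (Set.mem_Ici.2 (by norm_num : (0 : ℝ) ≤ 1.21))
    (Set.mem_Ici.2 hk0.le) hcon
  simp only at h1
  rw [hk, sub_self] at h1
  have h2 : (10.53 : ℝ) ≤ exp 2.42 := by
    have := sum_le_exp_of_nonneg (x := 2.42) (by norm_num) 7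
    simp only [Finset.sum_range_succ, Finset.sum_range_zero] at this
    norm_num [Nat.factorial] at this
    linarith
  have h3 : exp 1.21 * exp 1.21 = exp 2.42 := by rw [← exp_add]; norm_num
  have h4 : exp 1.21 * exp (-1.21) = 1 := by rw [← exp_add]; norm_num
  have h5 := exp_pos (1.21 : ℝ)
  have h6 : exp (-1.21) * 10.53 ≤ exp 1.21 := by
    have h7 := exp_pos (-1.21 : ℝ)
    have : exp (-1.21) * 10.53 ≤ exp (-1.21) * (exp 1.21 * exp 1.21) := by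
      rw [h3]; exact mul_le_mul_of_nonneg_left h2 h7.le
    calc _ ≤ _ := this
      _ = (exp 1.21 * exp (-1.21)) * exp 1.21 := by ring
      _ = exp 1.21 := by rw [h4, one_mul]
  rw [sinh_eq, cosh_eq] at h1
  have h8 := exp_pos (-1.21 : ℝ)
  nlinarith

theorem one_lt_root : ∀ {k : ℝ}, 0 < k → k * sinh k = cosh k → 1 < k := by
  intro k hk0 hk
  have h1 := sinh_lt_cosh k
  have h2 : 0 < sinh k := sinh_pos_iff.2 hk0
  nlinarith

/-- `coth 2s ≤ 1.04` for `s ≥ 1`. -/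
theorem coth_le {s : ℝ} (hs : 1 ≤ s) : cosh (2 * s) ≤ 1.04 * sinh (2 * s) := by
  have h1 : (51 : ℝ) ≤ exp (4 * s) := by
    have h2 : (51 : ℝ) ≤ exp 4 := by
      have := exp_one_gt_d9
      have e : exp 4 = (exp 1) ^ 4 := by rw [← exp_nat_mul]; norm_num
      rw [e]
      have : (2.718 : ℝ) ^ 4 ≤ exp 1 ^ 4 := pow_le_pow_left₀ (by norm_num) (by linarith) 4
      norm_num at this ⊢
      linarith
    exact h2.trans (exp_le_exp.2 (by linarith))
  have h3 : exp (2 * s) * exp (2 * s) = exp (4 * s) := by rw [← exp_add]; ring_nf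
  have h4 : exp (2 * s) * exp (-(2 * s)) = 1 := by rw [← exp_add]; simp
  have h5 := exp_pos (-(2 * s))
  have h6 : 51 * exp (-(2 * s)) ≤ exp (2 * s) := by
    have := mul_le_mul_of_nonneg_right h1 h5.le
    calc _ ≤ _ := this
      _ = (exp (2 * s) * exp (-(2 * s))) * exp (2 * s) := by rw [← h3]; ring
      _ = exp (2 * s) := by rw [h4, one_mul]
  rw [cosh_eq, sinh_eq]
  linarith

/-- the coefficient `2 s coth 2s - 1` -/
noncomputable def kap (s : ℝ) : ℝ := 2 * s * (cosh (2 * s) / sinh (2 * s)) - 1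

theorem one_le_coth {s : ℝ} (hs : 0 < s) : 1 ≤ cosh (2 * s) / sinh (2 * s) := by
  have h1 : 0 < sinh (2 * s) := sinh_pos_iff.2 (by linarith)
  rw [one_le_div h1]
  exact (sinh_lt_cosh _).le

theorem kap_ge {s : ℝ} (hs : 0 < s) : 2 * s - 1 ≤ kap s := by
  unfold kap
  nlinarith [one_le_coth hs]

theorem kap_le {s : ℝ} (hs : 1 ≤ s) : kap s ≤ 2.08 * s - 1 := by
  unfold kap
  have h1 : 0 < sinh (2 * s) := sinh_pos_iff.2 (by linarith)
  have h2 : cosh (2 * s) / sinh (2 * s) ≤ 1.04 := by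
    rw [div_le_iff₀ h1]; exact coth_le hs
  nlinarith

theorem kap_sq_le {s : ℝ} (hs : 1 ≤ s) : kap s ^ 2 ≤ 16 / 25 * dd s := by
  have h0 : 0 ≤ kap s := by linarith [kap_ge (by linarith : (0 : ℝ) < s)]
  have h1 : kap s ^ 2 ≤ (2.08 * s - 1) ^ 2 := pow_le_pow_left₀ h0 (kap_le hs) 2
  have h2 := cosh_sq_poly s
  unfold dd
  have h3 : (2.08 * s - 1) ^ 2 ≤ 16 / 25 * ((1 + s ^ 2 + s ^ 4 / 3 + 2 * s ^ 6 / 45) + s ^ 2) := by
    rcases le_total s 2.2 with h | h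
    · rcases le_total s 1.3 with h' | h'
      · have e4 : 3.38 * s ^ 2 - 2.8561 ≤ s ^ 4 := by nlinarith [sq_nonneg (s ^ 2 - 1.69)]
        have e6 : 3 * 2.8561 * s ^ 2 - 2 * 4.826809 ≤ s ^ 6 := by
          have : 0 ≤ (s ^ 2 - 1.69) ^ 2 * (s ^ 2 + 3.38) := by positivity
          nlinarith
        nlinarith
      · have e4 : 2 * 2.7225 * s ^ 2 - 2.7225 ^ 2 ≤ s ^ 4 := by
          nlinarith [sq_nonneg (s ^ 2 - 2.7225)]
        have e6 : 3 * 2.7225 ^ 2 * s ^ 2 - 2 * 2.7225 ^ 3 ≤ s ^ 6 := by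
          have : 0 ≤ (s ^ 2 - 2.7225) ^ 2 * (s ^ 2 + 2 * 2.7225) := by positivity
          nlinarith
        nlinarith
    · have e4 : 2 * 5 * s ^ 2 - 25 ≤ s ^ 4 := by nlinarith [sq_nonneg (s ^ 2 - 5)]
      have e6 : 3 * 25 * s ^ 2 - 250 ≤ s ^ 6 := by
        have : 0 ≤ (s ^ 2 - 5) ^ 2 * (s ^ 2 + 10) := by positivity
        nlinarith
      nlinarith
  linarith

/-- the relation of the first multiplier with `tanh 2s` -/
theorem mu_tanh {s : ℝ} : mu s = sinh (2 * s) / cosh (2 * s) -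
    ((s ^ 2 + 1 / 2) * (sinh (2 * s) / cosh (2 * s)) - s) / dd s := by
  have hd := dd_pos s
  have hc := cosh_pos (2 * s)
  unfold mu
  rw [sub_div' hd.ne', div_left_inj' hd.ne']
  have e1 : cosh (2 * s) = 2 * cosh s ^ 2 - 1 := by rw [cosh_two_mul, sinh_sq]; ring
  have e2 : sinh (2 * s) = 2 * sinh s * cosh s := sinh_two_mul s
  unfold dd
  field_simp
  rw [mul_comm s 2, e1, e2]
  ring

theorem dd_mono {a b : ℝ} (ha : 0 ≤ a) (h : a ≤ b) : dd a ≤ dd b := by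
  unfold dd
  have h1 : cosh a ≤ cosh b := by
    rw [cosh_le_cosh, abs_of_nonneg ha, abs_of_nonneg (ha.trans h)]; exact h
  have := cosh_pos a
  have h2 : cosh a ^ 2 ≤ cosh b ^ 2 := pow_le_pow_left₀ this.le h1 2
  have h3 : a ^ 2 ≤ b ^ 2 := pow_le_pow_left₀ ha h 2
  linarith

theorem dd_strict {a b : ℝ} (ha : 0 ≤ a) (h : a < b) : dd a < dd b := by
  have h1 := dd_mono ha h.le
  unfold dd at h1 ⊢
  have h2 : cosh a ≤ cosh b := by
    rw [cosh_le_cosh, abs_of_nonneg ha, abs_of_nonneg (ha.trans h.le)]; exact h.le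
  have := cosh_pos a
  have h2 : cosh a ^ 2 ≤ cosh b ^ 2 := pow_le_pow_left₀ this.le h2 2
  have h3 : a ^ 2 < b ^ 2 := pow_lt_pow_left₀ h ha two_ne_zero
  linarith

theorem dd_root {k : ℝ} (hk : k * sinh k = cosh k) : dd k * (k ^ 2 - 1) = k ^ 4 := by
  have e : cosh k ^ 2 - sinh k ^ 2 = 1 := cosh_sq_sub_sinh_sq k
  have h1 : cosh k ^ 2 = k ^ 2 * sinh k ^ 2 := by rw [← hk]; ring
  have h2 : cosh k ^ 2 * (k ^ 2 - 1) = k ^ 2 := by linear_combination k ^ 2 * e - h1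
  unfold dd
  linear_combination h2

theorem large_branch {k l B : ℝ} (hk1 : 1 < k) (hk2 : k ≤ 1.21) (hB : B * k ^ 4 ≤ k ^ 2 - 1)
    (h : l ^ 2 - l ^ 4 ≤ B) (h2 : 1 / 2 ≤ l ^ 2) (hl : 0 < l) :
    1 / k ≤ l ∧ (B * k ^ 4 < k ^ 2 - 1 → 1 / k < l) := by
  have hk0 : 0 < k := by linarith
  have hu1 : 1 < k ^ 2 := by nlinarith
  have hu2 : k ^ 2 ≤ 1.4641 := by nlinarith
  have key : (k ^ 2 * l ^ 2 - 1) * (k ^ 2 - k ^ 2 * l ^ 2 - 1) ≤ k ^ 4 * B - (k ^ 2 - 1) := by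
    nlinarith [mul_le_mul_of_nonneg_left h (by positivity : (0 : ℝ) ≤ k ^ 4)]
  have hneg : k ^ 2 - k ^ 2 * l ^ 2 - 1 < 0 := by nlinarith
  constructor
  · rw [div_le_iff₀ hk0]
    have h3 : 0 ≤ k ^ 2 * l ^ 2 - 1 := by
      by_contra hc
      push Not at hc
      have := mul_pos_of_neg_of_neg hc hneg
      nlinarith
    have h4 : 1 ≤ (l * k) ^ 2 := by nlinarith
    exact (one_le_sq_iff₀ (by positivity)).1 h4
  · intro hB'
    rw [div_lt_iff₀ hk0]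
    have h3 : 0 < k ^ 2 * l ^ 2 - 1 := by
      by_contra hc
      push Not at hc
      have := mul_nonneg_of_nonpos_of_nonpos hc hneg.le
      nlinarith
    have h4 : 1 < (l * k) ^ 2 := by nlinarith
    exact (one_lt_sq_iff₀ (by positivity)).1 h4

theorem end_ge {k s P B q l : ℝ} (hk0 : 0 < k) (hk : k * sinh k = cosh k) (hks : k ≤ s)
    (hP0 : 0 ≤ P) (hP : P ≤ 1 / 16) (hB0 : 0 ≤ B) (hB : B * dd s ≤ 1 - P) (hq : q ^ 2 ≤ P * B)
    (hl : (1 - P - (s ^ 2 + 1 / 2) * B) * (sinh (2 * s) / cosh (2 * s)) + s * B - kap s * q ≤ l) :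
    0.58 ≤ l := by
  have hk1 := one_lt_root hk0 hk
  have hk2 := root_le hk0 hk
  have hs1 : 1 ≤ s := by linarith
  have hd := dd_pos s
  have hmu : 1 / 1.21 ≤ mu s := by
    have h1 : phi k ≤ phi s :=
      phi_mono.monotoneOn (Set.mem_Ici.2 hk0.le) (Set.mem_Ici.2 (hk0.le.trans hks)) hks
    rw [phi_root hk0 hk, phi_eq] at h1
    have h2 : 2 / 1.21 ≤ 2 / k := div_le_div_of_nonneg_left (by norm_num) hk0 hk2
    norm_num at h2 h1 ⊢
    linarith
  have hmt := @mu_tanh s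
  have hc := cosh_pos (2 * s)
  have hsh : 0 < sinh (2 * s) := sinh_pos_iff.2 (by linarith)
  set T := sinh (2 * s) / cosh (2 * s) with hT
  have hT1 : 1 / 1.04 ≤ T := by
    rw [hT, div_le_div_iff₀ (by norm_num) hc]
    have := coth_le hs1
    linarith
  set E := (s ^ 2 + 1 / 2) * T - s with hE
  have hE0 : 0 ≤ E := by
    have : (s ^ 2 + 1 / 2) * (1 / 1.04) ≤ (s ^ 2 + 1 / 2) * T :=
      mul_le_mul_of_nonneg_left hT1 (by positivity)
    norm_num at this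
    nlinarith [sq_nonneg (s - 0.5)]
  have h1 : E * B ≤ (1 - P) * (E / dd s) := by
    have : E * (B * dd s) ≤ E * (1 - P) := mul_le_mul_of_nonneg_left hB hE0
    rw [mul_div_assoc', le_div_iff₀ hd]
    linarith
  have h2 : (kap s * q) ^ 2 ≤ 0.1937 ^ 2 := by
    have a1 := kap_sq_le hs1
    have a2 : kap s ^ 2 * q ^ 2 ≤ kap s ^ 2 * (P * B) := mul_le_mul_of_nonneg_left hq (sq_nonneg _)
    have a3 : kap s ^ 2 * (P * B) ≤ 16 / 25 * dd s * (P * B) :=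
      mul_le_mul_of_nonneg_right a1 (by positivity)
    have a4 : P * (B * dd s) ≤ P * (1 - P) := mul_le_mul_of_nonneg_left hB hP0
    have a5 : P * (1 - P) ≤ 15 / 256 := by nlinarith
    rw [mul_pow]
    norm_num
    nlinarith
  have h3 : kap s * q ≤ 0.1937 := (abs_le_of_sq_le_sq' h2 (by norm_num)).2
  have h4 : (1 - P) * mu s - 0.1937 ≤ l := by
    rw [hmt]
    nlinarith
  have h5 : 15 / 16 * (1 / 1.21) ≤ (1 - P) * mu s :=
    mul_le_mul (by linarith) hmu (by norm_num) (by linarith)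
  norm_num at h5 ⊢
  linarith

theorem branch_A {k s P B q l : ℝ} (hk0 : 0 < k) (hk : k * sinh k = cosh k) (hks : k ≤ s)
    (hP0 : 0 ≤ P) (hP : P ≤ 1 / 16) (hB0 : 0 ≤ B) (hB : B * dd s ≤ 1 - P) (hq : q ^ 2 ≤ P * B)
    (hw : l ^ 2 - l ^ 4 ≤ B)
    (hl : (1 - P - (s ^ 2 + 1 / 2) * B) * (sinh (2 * s) / cosh (2 * s)) + s * B - kap s * q ≤ l) :
    1 / 2 ≤ l ^ 2 := by
  by_contra hcon
  push Not at hcon
  have h1 := end_ge hk0 hk hks hP0 hP hB0 hB hq hl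
  have hk1 := one_lt_root hk0 hk
  have hk2 := root_le hk0 hk
  have h2 : B * k ^ 4 ≤ k ^ 2 - 1 := by
    have a1 : B * dd k ≤ 1 := by
      have := mul_le_mul_of_nonneg_left (dd_mono hk0.le hks) hB0
      linarith
    have a2 := dd_root hk
    have a3 : 0 < k ^ 2 - 1 := by nlinarith
    rw [← a2]
    nlinarith
  have h3 : 0.3364 ≤ l ^ 2 := by nlinarith
  have h4 : 0.22323504 ≤ B := by nlinarith
  have hu1 : 1 < k ^ 2 := by nlinarith
  have hu2 : k ^ 2 ≤ 1.4641 := by nlinarith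
  nlinarith [mul_le_mul_of_nonneg_right h4 (by positivity : (0 : ℝ) ≤ k ^ 4)]

theorem dd_ge {s : ℝ} (hs : 2 ≤ s) : 17 ≤ dd s := by
  have h := cosh_sq_poly s
  unfold dd
  have h2 : (4 : ℝ) ≤ s ^ 2 := by nlinarith
  have h4 : (16 : ℝ) ≤ s ^ 4 := by nlinarith
  have h6 : (64 : ℝ) ≤ s ^ 6 := by nlinarith
  linarith

/-- `coth 2s - tanh 2s` -/
theorem coth_sub_tanh {s : ℝ} (hs : 2 ≤ s) :
    dd s * (cosh (2 * s) / sinh (2 * s) - sinh (2 * s) / cosh (2 * s)) ≤ 1 / 2 := by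
  have hc := cosh_pos (2 * s)
  have hsh : 0 < sinh (2 * s) := sinh_pos_iff.2 (by linarith)
  have e : cosh (2 * s) / sinh (2 * s) - sinh (2 * s) / cosh (2 * s) =
      1 / (sinh (2 * s) * cosh (2 * s)) := by
    have := cosh_sq_sub_sinh_sq (2 * s)
    field_simp
    linarith
  rw [e, mul_one_div, div_le_iff₀ (by positivity)]
  have h1 : 2 * s ≤ sinh (2 * s) := self_le_sinh_iff.2 (by linarith)
  have h2 : cosh (2 * s) = 2 * cosh s ^ 2 - 1 := by rw [cosh_two_mul, sinh_sq]; ring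
  have h3 := one_le_cosh s
  have h4 : s ≤ cosh s := by
    have : s ≤ sinh s := self_le_sinh_iff.2 (by linarith)
    linarith [sinh_lt_cosh s]
  have h5 : dd s ≤ 2 * cosh s ^ 2 := by unfold dd; nlinarith
  have h6 : cosh s ^ 2 ≤ cosh (2 * s) := by rw [h2]; nlinarith
  have h7 : 4 * cosh s ^ 2 ≤ sinh (2 * s) * cosh (2 * s) :=
    mul_le_mul (by linarith) h6 (by positivity) hsh.le
  linarith

theorem poly_B {B : ℝ} (h0 : 0 ≤ B) (h : B ≤ 1 / 17) :
    1 ≤ (1 + 9 / 8 * B) ^ 2 * (1 - 2 * B) := by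
  have e : (1 + 9 / 8 * B) ^ 2 * (1 - 2 * B) = 1 + B * (1 / 4 - 207 / 64 * B - 81 / 32 * (B * B)) := by
    ring
  have h2 : B * B ≤ 1 / 17 * (1 / 17) := mul_le_mul h h h0 (by norm_num)
  have : 0 ≤ B * (1 / 4 - 207 / 64 * B - 81 / 32 * (B * B)) := mul_nonneg h0 (by linarith)
  rw [e]; linarith

theorem final_C {s v D T C K E M : ℝ} (hs : 2 ≤ s) (hv : 2 * s ≤ v) (hD : 17 ≤ D)
    (hM : M = T - E / D) (hM0 : 0 < M) (hK : 2 * s - 1 ≤ K) (hct : D * (C - T) ≤ 1 / 2)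
    (hsE : s ^ 2 - 1 / 2 ≤ s * K - E) :
    0 < v * M + v ^ 2 * (K / (2 * D) - 9 / 8 / D ^ 2) - 2 * s * C := by
  have hd : 0 < D := by linarith
  have b6 : (4 : ℝ) ≤ s ^ 2 := by nlinarith
  have a1 : 2 * s * M ≤ v * M := mul_le_mul_of_nonneg_right hv hM0.le
  have a2 : 0 ≤ K / (2 * D) - 9 / 8 / D ^ 2 := by
    rw [sub_nonneg, div_le_div_iff₀ (by positivity) (by positivity)]
    have c1 : 17 * 3 ≤ D * K := mul_le_mul hD (by linarith) (by norm_num) hd.le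
    have c2 : 51 * D ≤ D * K * D := mul_le_mul_of_nonneg_right (by linarith) hd.le
    linarith
  have a3 : (2 * s) ^ 2 * (K / (2 * D) - 9 / 8 / D ^ 2) ≤
      v ^ 2 * (K / (2 * D) - 9 / 8 / D ^ 2) :=
    mul_le_mul_of_nonneg_right (pow_le_pow_left₀ (by linarith) hv 2) a2
  have a4 : 0 < D * (2 * s * M + (2 * s) ^ 2 * (K / (2 * D) - 9 / 8 / D ^ 2) - 2 * s * C) := by
    have e : D * (2 * s * M + (2 * s) ^ 2 * (K / (2 * D) - 9 / 8 / D ^ 2) - 2 * s * C) =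
        2 * s * (s * K - E) - 2 * s * (D * (C - T)) - 9 / 2 * s ^ 2 / D := by
      rw [hM]; field_simp; ring
    rw [e]
    have b1 : 2 * s * (s ^ 2 - 1 / 2) ≤ 2 * s * (s * K - E) :=
      mul_le_mul_of_nonneg_left hsE (by linarith)
    have b2 : 2 * s * (D * (C - T)) ≤ 2 * s * (1 / 2) :=
      mul_le_mul_of_nonneg_left hct (by linarith)
    have b3 : 9 / 2 * s ^ 2 / D ≤ 9 / 2 * s ^ 2 / 17 :=
      div_le_div_of_nonneg_left (by positivity) (by norm_num) hD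
    have b4 : 4 * s ≤ s ^ 3 := by
      have := mul_le_mul_of_nonneg_left b6 (by linarith : 0 ≤ s)
      linarith
    have b5 : 2 * s ^ 2 ≤ s ^ 3 := by
      have := mul_le_mul_of_nonneg_left hs (by positivity : 0 ≤ s ^ 2)
      linarith
    linarith
  have a5 := (mul_pos_iff_of_pos_left hd).1 a4
  linarith

theorem branch_C {s P B q l : ℝ} (hs : 2 ≤ s) (hP0 : 0 ≤ P) (hP1 : P < 1)
    (hx : 4 * s ^ 2 ≤ (1 - P) * dd s) (hB0 : 0 ≤ B) (hB : B * dd s ≤ 1 - P)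
    (hq : q ^ 2 ≤ P * B) (hw : l ^ 2 - l ^ 4 ≤ B)
    (hl : (1 - P - (s ^ 2 + 1 / 2) * B) * (sinh (2 * s) / cosh (2 * s)) + s * B - kap s * q ≤ l) :
    1 / 2 ≤ l ^ 2 := by
  by_contra hcon
  push Not at hcon
  have hd := dd_pos s
  have hd17 := dd_ge hs
  have hmt := @mu_tanh s
  have hmu := mu_pos (by linarith : 0 < s)
  have hct := coth_sub_tanh hs
  have hk1 := kap_ge (by linarith : 0 < s)
  have hC1 := one_le_coth (by linarith : 0 < s)
  have hkC : kap s = 2 * s * (cosh (2 * s) / sinh (2 * s)) - 1 := rfl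
  have hc := cosh_pos (2 * s)
  have hsh : 0 < sinh (2 * s) := sinh_pos_iff.2 (by linarith)
  set T := sinh (2 * s) / cosh (2 * s) with hT
  set C := cosh (2 * s) / sinh (2 * s) with hC
  set K := kap s with hK
  have hT1 : T ≤ 1 := by rw [hT, div_le_one hc]; exact (sinh_lt_cosh _).le
  set E := (s ^ 2 + 1 / 2) * T - s with hE
  have hB17 : B ≤ 1 / 17 := by nlinarith
  -- square roots
  obtain ⟨b, hb0, hb⟩ : ∃ b : ℝ, 0 ≤ b ∧ b ^ 2 = B := ⟨√B, sqrt_nonneg _, sq_sqrt hB0⟩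
  obtain ⟨r, hr0, hr⟩ : ∃ r : ℝ, 0 ≤ r ∧ r ^ 2 = P := ⟨√P, sqrt_nonneg _, sq_sqrt hP0⟩
  obtain ⟨w, hw0, hw2⟩ : ∃ w : ℝ, 0 < w ∧ w ^ 2 = 1 - P :=
    ⟨√(1 - P), sqrt_pos.2 (by linarith), sq_sqrt (by linarith)⟩
  obtain ⟨d, hd0, hd2⟩ : ∃ d : ℝ, 0 < d ∧ d ^ 2 = dd s := ⟨√(dd s), sqrt_pos.2 hd, sq_sqrt hd.le⟩
  -- upper bound of `l`
  have hlB : l ^ 2 ≤ 2 * B := by
    have : 0 ≤ l ^ 2 * (1 / 2 - l ^ 2) := mul_nonneg (sq_nonneg _) (by linarith)
    linarith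
  have hl1 : l ^ 2 * (1 - 2 * B) ≤ B := by
    have : 0 ≤ l ^ 2 * (2 * B - l ^ 2) := mul_nonneg (sq_nonneg _) (by linarith)
    linarith
  have hl2 : l ≤ b * (1 + 9 / 8 * B) := by
    have a1 : B ≤ (b * (1 + 9 / 8 * B)) ^ 2 * (1 - 2 * B) := by
      have : B * 1 ≤ B * ((1 + 9 / 8 * B) ^ 2 * (1 - 2 * B)) := by
        exact mul_le_mul_of_nonneg_left (poly_B hB0 hB17) hB0
      rw [mul_pow, hb]
      linarith
    have a2 : l ^ 2 ≤ (b * (1 + 9 / 8 * B)) ^ 2 := by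
      have : l ^ 2 * (1 - 2 * B) ≤ (b * (1 + 9 / 8 * B)) ^ 2 * (1 - 2 * B) := hl1.trans a1
      exact le_of_mul_le_mul_right this (by linarith)
    exact (abs_le_of_sq_le_sq' a2 (by positivity)).2
  have hqr : q ≤ r * b := by
    have : q ^ 2 ≤ (r * b) ^ 2 := by rw [mul_pow, hr, hb]; exact hq
    exact (abs_le_of_sq_le_sq' this (by positivity)).2
  have hK0 : 0 ≤ K := by linarith
  have h1 : T * w ^ 2 ≤ b * (1 + 9 / 8 * B + E * b + K * r) := by
    have a1 : K * q ≤ K * (r * b) := mul_le_mul_of_nonneg_left hqr hK0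
    have e1 : b * (1 + 9 / 8 * B + E * b + K * r) =
      b * (1 + 9 / 8 * B) + E * b ^ 2 + K * (r * b) := by ring
    have e2 : T * (1 - P) = (1 - P - (s ^ 2 + 1 / 2) * B) * T + s * B + E * B := by rw [hE]; ring
    rw [e1, hb, hw2, e2]
    linarith
  have hbd : b * d ≤ w := by
    have : (b * d) ^ 2 ≤ w ^ 2 := by rw [mul_pow, hb, hd2, hw2]; exact hB
    exact (abs_le_of_sq_le_sq' this hw0.le).2
  have hr1 : r ≤ 1 - w ^ 2 / 2 := by
    have a1 : w ^ 2 ≤ 1 := by rw [hw2]; linarith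
    have : r ^ 2 ≤ (1 - w ^ 2 / 2) ^ 2 := by rw [hr]; nlinarith [sq_nonneg (w ^ 2)]
    exact (abs_le_of_sq_le_sq' this (by linarith)).2
  have hsE : s ^ 2 - 1 / 2 ≤ s * K - E := by
    have a1 : 2 * s ^ 2 * 1 ≤ 2 * s ^ 2 * C := mul_le_mul_of_nonneg_left hC1 (by positivity)
    have a2 : (s ^ 2 + 1 / 2) * T ≤ (s ^ 2 + 1 / 2) * 1 :=
      mul_le_mul_of_nonneg_left hT1 (by positivity)
    rw [hE, hkC]; linarith
  have hE0 : 0 ≤ E := by
    have h16 : 1 / 1.04 ≤ T := by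
      rw [hT, div_le_div_iff₀ (by norm_num) hc]
      have := coth_le (by linarith : 1 ≤ s)
      linarith
    have : (s ^ 2 + 1 / 2) * (1 / 1.04) ≤ (s ^ 2 + 1 / 2) * T :=
      mul_le_mul_of_nonneg_left h16 (by positivity)
    norm_num at this
    have h17 : 2 * s ≤ s ^ 2 := by rw [sq]; exact mul_le_mul_of_nonneg_right hs (by linarith)
    linarith
  -- F := 1 + 9/8 B + E b + K r
  have hF0 : 0 ≤ 1 + 9 / 8 * B + E * b + K * r := by positivity
  have h2 : T * w * d ≤ 1 + 9 / 8 * B + E * b + K * r := by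
    have a1 : T * w ^ 2 * d ≤ b * d * (1 + 9 / 8 * B + E * b + K * r) := by
      linarith [mul_le_mul_of_nonneg_right h1 hd0.le]
    have a2 : b * d * (1 + 9 / 8 * B + E * b + K * r) ≤ w * (1 + 9 / 8 * B + E * b + K * r) :=
      mul_le_mul_of_nonneg_right hbd hF0
    have a3 : w * (T * w * d) ≤ w * (1 + 9 / 8 * B + E * b + K * r) := by linarith
    exact le_of_mul_le_mul_left a3 hw0
  set v := w * d with hv
  have hv2 : v ^ 2 = (1 - P) * dd s := by rw [hv, mul_pow, hw2, hd2]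
  have hv0 : 0 < v := by positivity
  have hv2s : 2 * s ≤ v := by
    have : (2 * s) ^ 2 ≤ v ^ 2 := by rw [hv2]; linarith
    exact (abs_le_of_sq_le_sq' this hv0.le).2
  have hbv : b ≤ v / dd s := by
    rw [le_div_iff₀ hd, ← hd2, hv]
    have := mul_le_mul_of_nonneg_right hbd hd0.le
    linarith
  have hBv : B ≤ v ^ 2 / dd s ^ 2 := by
    rw [← hb, ← div_pow]
    exact pow_le_pow_left₀ hb0 hbv 2
  have hwv : w ^ 2 = v ^ 2 / dd s := by
    rw [hw2, hv2]; field_simp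
  have h3 : T * v ≤ 1 + 9 / 8 * (v ^ 2 / dd s ^ 2) + E * (v / dd s) +
      K * (1 - v ^ 2 / dd s / 2) := by
    have a1 : E * b ≤ E * (v / dd s) := mul_le_mul_of_nonneg_left hbv hE0
    have a2 : K * r ≤ K * (1 - v ^ 2 / dd s / 2) := by
      rw [← hwv]; exact mul_le_mul_of_nonneg_left hr1 hK0
    have a3 : T * v = T * w * d := by rw [hv]; ring
    rw [a3]
    linarith
  -- the final inequality
  have h4 := final_C hs hv2s hd17 hmt hmu hk1 hct hsE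
  have h5 : v * mu s = T * v - E * (v / dd s) := by
    rw [hmt]; field_simp
  have h6 : v ^ 2 * (K / (2 * dd s) - 9 / 8 / dd s ^ 2) =
      K * (v ^ 2 / dd s / 2) - 9 / 8 * (v ^ 2 / dd s ^ 2) := by
    field_simp
  rw [h5, h6] at h4
  linarith

end Pool.MP9f6534
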