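import Pool.Agent.Lib.MP_9f6534_gt.Defs
import Pool.Agent.Lib.MP_9f6534_gt.Ends
import Pool.Agent.Lib.MP_9f6534_gt.Num

open Real MeasureTheory Set Filter Topology

namespace Pool.MP9f6534

section general

variable {X : ℝ → ℝ → E3}

theorem hasDerivAt_dt (h : ContDiff ℝ 1 (fun p : ℝ × ℝ => X p.1 p.2)) (t θ : ℝ) :
    HasDerivAt (fun τ => X τ θ) (dt X t θ) t := by
  have hd : DifferentiableAt ℝ (fun p : ℝ × ℝ => X p.1 p.2) (t, θ) :=
    (h.differentiable one_ne_zero).differentiableAt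
  have h1 : HasDerivAt (fun τ : ℝ => (τ, θ)) ((1 : ℝ), (0 : ℝ)) t :=
    (hasDerivAt_id t).prodMk (hasDerivAt_const t θ)
  exact ((hd.hasFDerivAt.comp_hasDerivAt t h1).differentiableAt).hasDerivAt

theorem hasDerivAt_dθ (h : ContDiff ℝ 1 (fun p : ℝ × ℝ => X p.1 p.2)) (t θ : ℝ) :
    HasDerivAt (fun η => X t η) (dθ X t θ) θ := by
  have hd : DifferentiableAt ℝ (fun p : ℝ × ℝ => X p.1 p.2) (t, θ) :=
    (h.differentiable one_ne_zero).differentiableAt
  have h1 : HasDerivAt (fun η : ℝ => (t, η)) ((0 : ℝ), (1 : ℝ)) θ :=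
    (hasDerivAt_const θ t).prodMk (hasDerivAt_id θ)
  exact ((hd.hasFDerivAt.comp_hasDerivAt θ h1).differentiableAt).hasDerivAt

theorem dt_eq (h : ContDiff ℝ 1 (fun p : ℝ × ℝ => X p.1 p.2)) :
    (fun p : ℝ × ℝ => dt X p.1 p.2) =
      fun p => fderiv ℝ (fun p : ℝ × ℝ => X p.1 p.2) p ((1 : ℝ), (0 : ℝ)) := by
  funext p
  have hd : DifferentiableAt ℝ (fun p : ℝ × ℝ => X p.1 p.2) (p.1, p.2) :=
    (h.differentiable one_ne_zero).differentiableAt
  have h1 : HasDerivAt (fun τ : ℝ => (τ, p.2)) ((1 : ℝ), (0 : ℝ)) p.1 :=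
    (hasDerivAt_id p.1).prodMk (hasDerivAt_const p.1 p.2)
  exact (hd.hasFDerivAt.comp_hasDerivAt p.1 h1).deriv

theorem dθ_eq (h : ContDiff ℝ 1 (fun p : ℝ × ℝ => X p.1 p.2)) :
    (fun p : ℝ × ℝ => dθ X p.1 p.2) =
      fun p => fderiv ℝ (fun p : ℝ × ℝ => X p.1 p.2) p ((0 : ℝ), (1 : ℝ)) := by
  funext p
  have hd : DifferentiableAt ℝ (fun p : ℝ × ℝ => X p.1 p.2) (p.1, p.2) :=
    (h.differentiable one_ne_zero).differentiableAt
  have h1 : HasDerivAt (fun η : ℝ => (p.1, η)) ((0 : ℝ), (1 : ℝ)) p.2 :=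
    (hasDerivAt_const p.2 p.1).prodMk (hasDerivAt_id p.2)
  exact (hd.hasFDerivAt.comp_hasDerivAt p.2 h1).deriv

theorem contDiff_dt (h : ContDiff ℝ 2 (fun p : ℝ × ℝ => X p.1 p.2)) :
    ContDiff ℝ 1 (fun p : ℝ × ℝ => dt X p.1 p.2) := by
  rw [dt_eq (h.of_le one_le_two)]
  exact (h.fderiv_right (m := 1) (by norm_num)).clm_apply contDiff_const

theorem contDiff_dθ (h : ContDiff ℝ 2 (fun p : ℝ × ℝ => X p.1 p.2)) :
    ContDiff ℝ 1 (fun p : ℝ × ℝ => dθ X p.1 p.2) := by
  rw [dθ_eq (h.of_le one_le_two)]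
  exact (h.fderiv_right (m := 1) (by norm_num)).clm_apply contDiff_const

theorem continuous_dt (h : ContDiff ℝ 1 (fun p : ℝ × ℝ => X p.1 p.2)) :
    Continuous (fun p : ℝ × ℝ => dt X p.1 p.2) := by
  rw [dt_eq h]
  exact (h.continuous_fderiv one_ne_zero).clm_apply continuous_const

theorem continuous_dθ (h : ContDiff ℝ 1 (fun p : ℝ × ℝ => X p.1 p.2)) :
    Continuous (fun p : ℝ × ℝ => dθ X p.1 p.2) := by
  rw [dθ_eq h]
  exact (h.continuous_fderiv one_ne_zero).clm_apply continuous_const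

theorem hasDerivAt_coord {f : ℝ → E3} {f' : E3} {t : ℝ} (h : HasDerivAt f f' t) (j : Fin 3) :
    HasDerivAt (fun t => f t j) (f' j) t :=
  ((EuclideanSpace.proj (𝕜 := ℝ) j).hasFDerivAt.comp_hasDerivAt t h)

theorem comp_of {s : ℝ} (h : IsFreeBoundaryMinimalAnnulus s X) (j : Fin 3) :
    Comp s (fun t θ => X t θ j) (fun t θ => dt X t θ j) (fun t θ => dt (dt X) t θ j)
      (fun t θ => dθ X t θ j) (fun t θ => dθ (dθ X) t θ j) where
  cx := (EuclideanSpace.proj (𝕜 := ℝ) j).continuous.comp h.smooth.continuous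
  cxt := (EuclideanSpace.proj (𝕜 := ℝ) j).continuous.comp (contDiff_dt h.smooth).continuous
  cxtt := (EuclideanSpace.proj (𝕜 := ℝ) j).continuous.comp (continuous_dt (contDiff_dt h.smooth))
  cxr := (EuclideanSpace.proj (𝕜 := ℝ) j).continuous.comp (contDiff_dθ h.smooth).continuous
  cxrr := (EuclideanSpace.proj (𝕜 := ℝ) j).continuous.comp (continuous_dθ (contDiff_dθ h.smooth))
  dxt := fun t θ => hasDerivAt_coord (hasDerivAt_dt (h.smooth.of_le one_le_two) t θ) j
  dxtt := fun t θ => hasDerivAt_coord (hasDerivAt_dt (contDiff_dt h.smooth) t θ) j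
  dxr := fun t θ => hasDerivAt_coord (hasDerivAt_dθ (h.smooth.of_le one_le_two) t θ) j
  dxrr := fun t θ => hasDerivAt_coord (hasDerivAt_dθ (contDiff_dθ h.smooth) t θ) j
  per := fun t => by
    have := h.periodic t 0
    rw [zero_add] at this
    simp only [this]
  perr := fun t => by
    have h1 : dθ X t (0 + 2 * π) = dθ X t 0 := by
      unfold dθ
      have h2 : (fun η => X t η) = fun η => X t (η + 2 * π) := by
        funext η; rw [h.periodic]
      conv_rhs => rw [h2]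
      rw [deriv_comp_add_const (f := fun η => X t η)]
    rw [zero_add] at h1
    simp only [h1]
  harm := fun t ht θ => by
    have := h.harmonic t θ (abs_le.2 ht)
    have h2 := congrArg (fun v : E3 => v j) this
    simpa using h2

end general

theorem norm_sq_eq (v : E3) : ‖v‖ ^ 2 = v 0 ^ 2 + v 1 ^ 2 + v 2 ^ 2 := by
  rw [EuclideanSpace.norm_sq_eq, Fin.sum_univ_three]
  simp

theorem cont_slice3 {X : ℝ → ℝ → E3} (h : Continuous (fun p : ℝ × ℝ => X p.1 p.2)) (t : ℝ) :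
    Continuous (X t) :=
  h.comp (by fun_prop : Continuous fun θ : ℝ => (t, θ))

theorem int_coord {f : ℝ → E3} (hf : Continuous f) (j : Fin 3) :
    (∫ θ in (0 : ℝ)..(2 * π), f θ) j = ∫ θ in (0 : ℝ)..(2 * π), f θ j := by
  have := (EuclideanSpace.proj (𝕜 := ℝ) j).intervalIntegral_comp_comm
    (hf.intervalIntegrable (μ := volume) 0 (2 * π))
  exact this.symm

theorem int_norm_sq {f : ℝ → E3} (hf : Continuous f) :
    ∫ θ in (0 : ℝ)..(2 * π), ‖f θ‖ ^ 2 = (∫ θ in (0 : ℝ)..(2 * π), f θ 0 ^ 2) +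
      (∫ θ in (0 : ℝ)..(2 * π), f θ 1 ^ 2) + ∫ θ in (0 : ℝ)..(2 * π), f θ 2 ^ 2 := by
  have hc : ∀ j : Fin 3, Continuous fun θ => f θ j := fun j =>
    (EuclideanSpace.proj (𝕜 := ℝ) j).continuous.comp hf
  have hi : ∀ j : Fin 3, IntervalIntegrable (fun θ => f θ j ^ 2) volume 0 (2 * π) := fun j =>
    ((hc j).pow 2).intervalIntegrable _ _
  rw [← intervalIntegral.integral_add (hi 0) (hi 1),
    ← intervalIntegral.integral_add ((hi 0).add (hi 1)) (hi 2)]
  simp_rw [norm_sq_eq]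

/-- Green's formula: twice the area, componentwise. -/
theorem two_area {s : ℝ} {X : ℝ → ℝ → E3} (h : IsFreeBoundaryMinimalAnnulus s X) :
    2 * area s X =
      ((∫ θ in (0 : ℝ)..(2 * π), X s θ 0 * dt X s θ 0) -
        ∫ θ in (0 : ℝ)..(2 * π), X (-s) θ 0 * dt X (-s) θ 0) +
      ((∫ θ in (0 : ℝ)..(2 * π), X s θ 1 * dt X s θ 1) -
        ∫ θ in (0 : ℝ)..(2 * π), X (-s) θ 1 * dt X (-s) θ 1) +
      ((∫ θ in (0 : ℝ)..(2 * π), X s θ 2 * dt X s θ 2) -
        ∫ θ in (0 : ℝ)..(2 * π), X (-s) θ 2 * dt X (-s) θ 2) := by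
  have hs := h.pos
  have hX := h.smooth
  have cT : ∀ t, Continuous (dt X t) := fun t =>
    (contDiff_dt hX).continuous.comp (by fun_prop : Continuous fun θ : ℝ => (t, θ))
  have cR : ∀ t, Continuous (dθ X t) := fun t =>
    (contDiff_dθ hX).continuous.comp (by fun_prop : Continuous fun θ : ℝ => (t, θ))
  have harea : 2 * area s X = ∫ t in (-s)..s, ((∫ θ in (0 : ℝ)..(2 * π), ‖dt X t θ‖ ^ 2) +
      ∫ θ in (0 : ℝ)..(2 * π), ‖dθ X t θ‖ ^ 2) := by
    unfold area
    rw [← intervalIntegral.integral_const_mul]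
    apply intervalIntegral.integral_congr
    intro t ht
    rw [uIcc_of_le (by linarith)] at ht
    simp only
    have hc : ∀ θ, ‖dt X t θ‖ = ‖dθ X t θ‖ := fun θ => (h.conformal t θ (abs_le.2 ht)).1
    have e1 : (∫ θ in (0 : ℝ)..(2 * π), ‖dt X t θ‖ * ‖dθ X t θ‖) =
        ∫ θ in (0 : ℝ)..(2 * π), ‖dθ X t θ‖ ^ 2 := by
      apply intervalIntegral.integral_congr
      intro θ _
      simp only
      rw [hc θ, sq]
    have e2 : (∫ θ in (0 : ℝ)..(2 * π), ‖dt X t θ‖ ^ 2) =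
        ∫ θ in (0 : ℝ)..(2 * π), ‖dθ X t θ‖ ^ 2 := by
      apply intervalIntegral.integral_congr
      intro θ _
      simp only
      rw [hc θ]
    rw [e1, e2]; ring
  have cTj : ∀ j : Fin 3, Continuous fun p : ℝ × ℝ => dt X p.1 p.2 j := fun j => (comp_of h j).cxt
  have cRj : ∀ j : Fin 3, Continuous fun p : ℝ × ℝ => dθ X p.1 p.2 j := fun j => (comp_of h j).cxr
  have hcont : ∀ j : Fin 3, Continuous fun t => ((∫ θ in (0 : ℝ)..(2 * π), dt X t θ j ^ 2) +
      ∫ θ in (0 : ℝ)..(2 * π), dθ X t θ j ^ 2) := by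
    intro j
    apply Continuous.add
    · apply intervalIntegral.continuous_parametric_intervalIntegral_of_continuous'
      exact (cTj j).pow 2
    · apply intervalIntegral.continuous_parametric_intervalIntegral_of_continuous'
      exact (cRj j).pow 2
  have hint : ∀ j : Fin 3, IntervalIntegrable
      (fun t => ((∫ θ in (0 : ℝ)..(2 * π), dt X t θ j ^ 2) +
      ∫ θ in (0 : ℝ)..(2 * π), dθ X t θ j ^ 2)) volume (-s) s := fun j =>
    (hcont j).intervalIntegrable _ _
  rw [(comp_of h 0).green hs, (comp_of h 1).green hs, (comp_of h 2).green hs,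
    harea, ← intervalIntegral.integral_add (hint 0) (hint 1),
    ← intervalIntegral.integral_add ((hint 0).add (hint 1)) (hint 2)]
  apply intervalIntegral.integral_congr
  intro t _
  simp only
  rw [int_norm_sq (cT t), int_norm_sq (cR t)]
  ring

/-- The coordinates of the centre are the means at the middle circle. -/
theorem centre_coord {s : ℝ} {X : ℝ → ℝ → E3} (h : IsFreeBoundaryMinimalAnnulus s X) (j : Fin 3) :
    (centre s X) j = av (fun θ => X 0 θ j) := by
  have hs := h.pos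
  have cX : ∀ t, Continuous (X t) := fun t =>
    h.smooth.continuous.comp (by fun_prop : Continuous fun θ : ℝ => (t, θ))
  have hI : ∀ t, (∫ θ in (0 : ℝ)..(2 * π), X t θ) j = ∫ θ in (0 : ℝ)..(2 * π), X t θ j :=
    fun t => int_coord (cX t) j
  have h1 := ((comp_of h j).mean_lin hs s ⟨by linarith, le_rfl⟩).1
  have h2 := ((comp_of h j).mean_lin hs (-s) ⟨le_rfl, by linarith⟩).1
  have e : (centre s X) j = ((2 * π)⁻¹ * (∫ θ in (0 : ℝ)..(2 * π), X s θ j) +
      (2 * π)⁻¹ * ∫ θ in (0 : ℝ)..(2 * π), X (-s) θ j) / 2 := by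
    unfold centre
    rw [PiLp.smul_apply, PiLp.add_apply, hI, hI, smul_eq_mul]
    have : π ≠ 0 := pi_ne_zero
    field_simp
    ring
  rw [e, h1, h2]
  unfold av
  ring

/-- The main inequality. -/
theorem area_ge {s : ℝ} {X : ℝ → ℝ → E3} (h : IsFreeBoundaryMinimalAnnulus s X) :
    (1 - ‖centre s X‖ ^ 2) * (π * phi s) ≤ area s X := by
  have hs := h.pos
  have hX := h.smooth
  have cX : ∀ t, Continuous (X t) := fun t =>
    hX.continuous.comp (by fun_prop : Continuous fun θ : ℝ => (t, θ))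
  have cT : ∀ t, Continuous (dt X t) := fun t =>
    (contDiff_dt hX).continuous.comp (by fun_prop : Continuous fun θ : ℝ => (t, θ))
  have cR : ∀ t, Continuous (dθ X t) := fun t =>
    (contDiff_dθ hX).continuous.comp (by fun_prop : Continuous fun θ : ℝ => (t, θ))
  -- boundary values
  have b1 : (∫ θ in (0 : ℝ)..(2 * π), ‖X s θ‖ ^ 2) = 2 * π := by
    have : ∀ θ, ‖X s θ‖ ^ 2 = 1 := fun θ => by rw [(h.boundary θ).1]; norm_num
    simp_rw [this]
    simp
  have b2 : (∫ θ in (0 : ℝ)..(2 * π), ‖X (-s) θ‖ ^ 2) = 2 * π := by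
    have : ∀ θ, ‖X (-s) θ‖ ^ 2 = 1 := fun θ => by rw [(h.boundary θ).2]; norm_num
    simp_rw [this]
    simp
  rw [int_norm_sq (cX s)] at b1
  rw [int_norm_sq (cX (-s))] at b2
  -- conformality on the middle circle
  have b3 : (∫ θ in (0 : ℝ)..(2 * π), ‖dθ X 0 θ‖ ^ 2) = ∫ θ in (0 : ℝ)..(2 * π), ‖dt X 0 θ‖ ^ 2 := by
    apply intervalIntegral.integral_congr
    intro θ _
    simp only
    rw [(h.conformal 0 θ (by rw [abs_zero]; exact hs.le)).1]
  rw [int_norm_sq (cR 0), int_norm_sq (cT 0)] at b3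
  have hi : ∀ j : Fin 3, _ := fun j => (comp_of h j).ineq hs
  have hcentre : ∀ j : Fin 3, ‖fc (fun θ => X 0 θ j) 0‖ ^ 2 = (centre s X) j ^ 2 := by
    intro j
    rw [centre_coord h, fc_zero, Complex.norm_real, Real.norm_eq_abs, sq_abs]
    rfl
  have i0 := hi 0
  have i1 := hi 1
  have i2 := hi 2
  simp only at i0 i1 i2
  rw [hcentre 0, ← mul_sub] at i0
  rw [hcentre 1, ← mul_sub] at i1
  rw [hcentre 2, ← mul_sub] at i2
  rw [norm_sq_eq (centre s X), phi_eq]
  have hpi := pi_pos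
  have hpi' : (2 * π)⁻¹ * (2 * π) = 1 := inv_mul_cancel₀ (by positivity)
  have b1' := congrArg (fun r => (2 * π)⁻¹ * r) b1
  have b2' := congrArg (fun r => (2 * π)⁻¹ * r) b2
  simp only [hpi'] at b1' b2'
  have key : mu s * (1 + 1) - 2 * mu s *
      ((centre s X) 0 ^ 2 + (centre s X) 1 ^ 2 + (centre s X) 2 ^ 2) ≤
      (2 * π)⁻¹ * (2 * area s X) := by
    rw [two_area h]
    linear_combination i0 + i1 + i2 - mu s * b1' - mu s * b2' - 2 * nu s * (2 * π)⁻¹ * b3
  have e : (2 * π)⁻¹ * (2 * area s X) = area s X / π := by field_simp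
  rw [e, le_div_iff₀ hpi] at key
  linarith

section ends

variable {s : ℝ} {X : ℝ → ℝ → E3}

/-- mean speed of the circle at height `t` -/
noncomputable def len (t : ℝ) (X : ℝ → ℝ → E3) : ℝ := av (fun θ => ‖dt X t θ‖)

/-- coordinates of the flux -/
noncomputable def bb (X : ℝ → ℝ → E3) (j : Fin 3) : ℝ := av (fun θ => dt X 0 θ j)

/-- squared norm of the flux -/
noncomputable def BB (X : ℝ → ℝ → E3) : ℝ := bb X 0 ^ 2 + bb X 1 ^ 2 + bb X 2 ^ 2

/-- inner product of the centre and the flux -/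
noncomputable def qq (s : ℝ) (X : ℝ → ℝ → E3) : ℝ :=
  centre s X 0 * bb X 0 + centre s X 1 * bb X 1 + centre s X 2 * bb X 2

theorem av_norm_sq {f : ℝ → E3} (hf : Continuous f) :
    av (fun θ => ‖f θ‖ ^ 2) = av (fun θ => f θ 0 ^ 2) + av (fun θ => f θ 1 ^ 2) +
      av (fun θ => f θ 2 ^ 2) := by
  unfold av
  rw [int_norm_sq hf]; ring

theorem av_one : av (fun _ => (1 : ℝ)) = 1 := by
  unfold av
  rw [intervalIntegral.integral_const, smul_eq_mul, mul_one, sub_zero]
  exact inv_mul_cancel₀ (by positivity)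

theorem av_add3 {f : Fin 3 → ℝ → ℝ} (hf : ∀ j, Continuous (f j)) :
    av (f 0) + av (f 1) + av (f 2) = av (fun θ => f 0 θ + f 1 θ + f 2 θ) := by
  have h1 : av (fun θ => f 0 θ + f 1 θ + f 2 θ) = av (fun θ => f 0 θ + f 1 θ) + av (f 2) :=
    av_add ((hf 0).add (hf 1)) (hf 2)
  have h2 : av (fun θ => f 0 θ + f 1 θ) = av (f 0) + av (f 1) := av_add (hf 0) (hf 1)
  rw [h1, h2]

theorem flux_bound (h : IsFreeBoundaryMinimalAnnulus s X) (hlong : 3 / 2 ≤ cosh s) :
    BB X * dd s ≤ 1 - ‖centre s X‖ ^ 2 := by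
  have hs := h.pos
  have hX := h.smooth
  have cX : ∀ t, Continuous (X t) := fun t =>
    hX.continuous.comp (by fun_prop : Continuous fun θ : ℝ => (t, θ))
  have cT : ∀ t, Continuous (dt X t) := fun t =>
    (contDiff_dt hX).continuous.comp (by fun_prop : Continuous fun θ : ℝ => (t, θ))
  have cR : ∀ t, Continuous (dθ X t) := fun t =>
    (contDiff_dθ hX).continuous.comp (by fun_prop : Continuous fun θ : ℝ => (t, θ))
  have b1 : av (fun θ => ‖X s θ‖ ^ 2) = 1 := by
    have : ∀ θ, ‖X s θ‖ ^ 2 = 1 := fun θ => by rw [(h.boundary θ).1]; norm_num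
    simp_rw [this]
    exact av_one
  have b2 : av (fun θ => ‖X (-s) θ‖ ^ 2) = 1 := by
    have : ∀ θ, ‖X (-s) θ‖ ^ 2 = 1 := fun θ => by rw [(h.boundary θ).2]; norm_num
    simp_rw [this]
    exact av_one
  have b3 : av (fun θ => ‖dθ X 0 θ‖ ^ 2) = av (fun θ => ‖dt X 0 θ‖ ^ 2) := by
    congr 1
    funext θ
    rw [(h.conformal 0 θ (by rw [abs_zero]; exact hs.le)).1]
  rw [av_norm_sq (cX s)] at b1
  rw [av_norm_sq (cX (-s))] at b2
  rw [av_norm_sq (cR 0), av_norm_sq (cT 0)] at b3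
  have hf : ∀ j : Fin 3, _ := fun j => (comp_of h j).flux hs hlong
  have hc : ∀ j : Fin 3, ‖fc (fun θ => X 0 θ j) 0‖ ^ 2 = (centre s X) j ^ 2 := by
    intro j
    rw [centre_coord h, fc_zero, Complex.norm_real, Real.norm_eq_abs, sq_abs]
    rfl
  have hb : ∀ j : Fin 3, ‖fc (fun θ => dt X 0 θ j) 0‖ ^ 2 = bb X j ^ 2 := by
    intro j
    rw [fc_zero, Complex.norm_real, Real.norm_eq_abs, sq_abs]
    rfl
  have f0 := hf 0
  have f1 := hf 1
  have f2 := hf 2
  simp only at f0 f1 f2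
  rw [hc, hb] at f0 f1 f2
  rw [norm_sq_eq (centre s X)]
  unfold BB dd
  unfold av at b1 b2 b3
  linear_combination (f0 + f1 + f2 + b1 + b2 + 2 * cosh s ^ 2 * (-b3)) / 2

/-- Wirtinger's inequality along a boundary circle. -/
theorem arc_bound (h : IsFreeBoundaryMinimalAnnulus s X) {t ε : ℝ} (ht : t ∈ Icc (-s) s)
    (hε : ε ^ 2 = 1) (hb : ∀ θ, ‖X t θ‖ = 1)
    (ho : ∀ θ, dt X t θ = (ε * ‖dt X t θ‖) • X t θ) :
    0 < len t X ∧ len t X ^ 2 - len t X ^ 4 ≤ BB X := by
  have hs := h.pos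
  have hX := h.smooth
  have cX : Continuous (X t) :=
    hX.continuous.comp (by fun_prop : Continuous fun θ : ℝ => (t, θ))
  have cT : Continuous (dt X t) :=
    (contDiff_dt hX).continuous.comp (by fun_prop : Continuous fun θ : ℝ => (t, θ))
  have cR : Continuous (dθ X t) :=
    (contDiff_dθ hX).continuous.comp (by fun_prop : Continuous fun θ : ℝ => (t, θ))
  set lam : ℝ → ℝ := fun θ => ‖dt X t θ‖ with hlam
  have hlc : Continuous lam := cT.norm
  have hlpos : ∀ θ, 0 < lam θ := fun θ => norm_pos_iff.2 (h.immersed t θ (abs_le.2 ht))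
  have hper : ∀ θ, lam (θ + 2 * π) = lam θ := by
    intro θ
    have : dt X t (θ + 2 * π) = dt X t θ := by
      unfold dt
      congr 1
      funext τ
      exact h.periodic τ θ
    rw [hlam]
    simp only [this]
  have hl : len t X = (2 * π)⁻¹ * ∫ θ in (0 : ℝ)..(2 * π), lam θ := rfl
  have hl0 := (exists_reparam hlc hlpos hper hl).1
  refine ⟨hl0, ?_⟩
  have hw : ∀ j : Fin 3, _ := fun j => arc_wirt hlc hlpos hper hl (f := fun θ => X t θ j)
    (f' := fun θ => dθ X t θ j) ((comp_of h j).dxr t) (cont_slice (comp_of h j).cxr t)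
    ((comp_of h j).per t)
  -- the weighted mean is the flux
  have hm : ∀ j : Fin 3, (2 * π)⁻¹ * (∫ θ in (0 : ℝ)..(2 * π), X t θ j * lam θ) = ε * bb X j := by
    intro j
    have e1 : ∀ θ, X t θ j * lam θ = ε * dt X t θ j := by
      intro θ
      have := congrArg (fun v : E3 => v j) (ho θ)
      simp only [PiLp.smul_apply, smul_eq_mul] at this
      rw [this, hlam]
      linear_combination (-(X t θ j * ‖dt X t θ‖)) * hε
    simp_rw [e1]
    rw [intervalIntegral.integral_const_mul]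
    have := ((comp_of h j).mean_lin hs t ht).2
    unfold bb av
    rw [← this]
    ring
  have hsum1 : (2 * π)⁻¹ * (∫ θ in (0 : ℝ)..(2 * π), X t θ 0 ^ 2 * lam θ) +
      (2 * π)⁻¹ * (∫ θ in (0 : ℝ)..(2 * π), X t θ 1 ^ 2 * lam θ) +
      (2 * π)⁻¹ * (∫ θ in (0 : ℝ)..(2 * π), X t θ 2 ^ 2 * lam θ) = len t X := by
    have hc : ∀ j : Fin 3, Continuous fun θ => X t θ j ^ 2 * lam θ := fun j =>
      (((EuclideanSpace.proj (𝕜 := ℝ) j).continuous.comp cX).pow 2).mul hlc
    refine (av_add3 (f := fun j θ => X t θ j ^ 2 * lam θ) hc).trans ?_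
    unfold len
    congr 1
    funext θ
    have := norm_sq_eq (X t θ)
    rw [hb θ] at this
    simp only
    linear_combination (-(lam θ)) * this
  have hsum2 : (2 * π)⁻¹ * (∫ θ in (0 : ℝ)..(2 * π), dθ X t θ 0 ^ 2 / lam θ) +
      (2 * π)⁻¹ * (∫ θ in (0 : ℝ)..(2 * π), dθ X t θ 1 ^ 2 / lam θ) +
      (2 * π)⁻¹ * (∫ θ in (0 : ℝ)..(2 * π), dθ X t θ 2 ^ 2 / lam θ) = len t X := by
    have hc : ∀ j : Fin 3, Continuous fun θ => dθ X t θ j ^ 2 / lam θ := fun j =>
      (((EuclideanSpace.proj (𝕜 := ℝ) j).continuous.comp cR).pow 2).div hlc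
        (fun θ => (hlpos θ).ne')
    refine (av_add3 (f := fun j θ => dθ X t θ j ^ 2 / lam θ) hc).trans ?_
    unfold len
    congr 1
    funext θ
    have h1 := norm_sq_eq (dθ X t θ)
    rw [← (h.conformal t θ (abs_le.2 ht)).1] at h1
    have h2 := (hlpos θ).ne'
    rw [← add_div, ← add_div, ← h1, div_eq_iff h2, hlam]
    ring
  have w0 := hw 0
  have w1 := hw 1
  have w2 := hw 2
  simp only at w0 w1 w2
  rw [hm] at w0 w1 w2
  set l := len t X with hldef
  have hmul : l ^ 2 * (1 - BB X / l ^ 2) ≤ l ^ 2 * l ^ 2 := by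
    apply mul_le_mul_of_nonneg_left _ (sq_nonneg l)
    have e1 : 1 - BB X / l ^ 2 = l / l - ((ε * bb X 0 / l) ^ 2 + (ε * bb X 1 / l) ^ 2 +
        (ε * bb X 2 / l) ^ 2) := by
      rw [div_self hl0.ne']
      unfold BB
      have e2 : ∀ z : ℝ, (ε * z / l) ^ 2 = z ^ 2 / l ^ 2 := by
        intro z
        rw [div_pow, mul_pow, hε, one_mul]
      rw [e2, e2, e2]
      ring
    rw [e1]
    have e3 : l / l = (2 * π)⁻¹ * (∫ θ in (0 : ℝ)..(2 * π), X t θ 0 ^ 2 * lam θ) / l +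
      (2 * π)⁻¹ * (∫ θ in (0 : ℝ)..(2 * π), X t θ 1 ^ 2 * lam θ) / l +
      (2 * π)⁻¹ * (∫ θ in (0 : ℝ)..(2 * π), X t θ 2 ^ 2 * lam θ) / l := by
      rw [← add_div, ← add_div, hsum1]
    have e4 : l ^ 2 = l * ((2 * π)⁻¹ * (∫ θ in (0 : ℝ)..(2 * π), dθ X t θ 0 ^ 2 / lam θ)) +
      l * ((2 * π)⁻¹ * (∫ θ in (0 : ℝ)..(2 * π), dθ X t θ 1 ^ 2 / lam θ)) +
      l * ((2 * π)⁻¹ * (∫ θ in (0 : ℝ)..(2 * π), dθ X t θ 2 ^ 2 / lam θ)) := by
      rw [← mul_add, ← mul_add, hsum2, sq]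
    rw [e3, e4]
    linarith
  have e5 : l ^ 2 * (1 - BB X / l ^ 2) = l ^ 2 - BB X := by
    have := hl0.ne'
    field_simp
  rw [e5] at hmul
  nlinarith

theorem end_algebra {M q B s l y₁ y₂ : ℝ} (hs : 0 < s) (h1 : y₁ = M - 2 * s * q)
    (h2 : y₂ = M + 2 * s * q)
    (h : 2 * (y₁ * cosh (4 * s) - y₂) ≤ 2 * (l - q - s * B) * sinh (4 * s)) :
    M * (sinh (2 * s) / cosh (2 * s)) + s * B - kap s * q ≤ l := by
  have hc := cosh_pos (2 * s)
  have hsh : 0 < sinh (2 * s) := sinh_pos_iff.2 (by linarith)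
  have e1 : cosh (4 * s) = 2 * cosh (2 * s) ^ 2 - 1 := by
    rw [show 4 * s = 2 * (2 * s) by ring, cosh_two_mul, sinh_sq]; ring
  have e2 : sinh (4 * s) = 2 * sinh (2 * s) * cosh (2 * s) := by
    rw [show 4 * s = 2 * (2 * s) by ring, sinh_two_mul]
  have e3 := cosh_sq_sub_sinh_sq (2 * s)
  rw [h1, h2, e1, e2] at h
  unfold kap
  set c := cosh (2 * s)
  set d := sinh (2 * s)
  have h3 : (M * (d / c) + s * B - (2 * s * (c / d) - 1) * q) * (4 * d * c) ≤ l * (4 * d * c) := by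
    have e4 : (M * (d / c) + s * B - (2 * s * (c / d) - 1) * q) * (4 * d * c) =
        4 * M * d ^ 2 + 4 * s * B * d * c - 8 * s * q * c ^ 2 + 4 * q * d * c := by
      field_simp
      ring
    rw [e4]
    linear_combination h - 4 * M * e3
  exact le_of_mul_le_mul_right h3 (by positivity)

theorem len_eq (h : IsFreeBoundaryMinimalAnnulus s X) :
    av (fun θ => X s θ 0 * dt X s θ 0) + av (fun θ => X s θ 1 * dt X s θ 1) +
      av (fun θ => X s θ 2 * dt X s θ 2) = len s X ∧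
    av (fun θ => X (-s) θ 0 * dt X (-s) θ 0) + av (fun θ => X (-s) θ 1 * dt X (-s) θ 1) +
      av (fun θ => X (-s) θ 2 * dt X (-s) θ 2) = -len (-s) X := by
  have hX := h.smooth
  have cX : ∀ t, Continuous (X t) := fun t =>
    hX.continuous.comp (by fun_prop : Continuous fun θ : ℝ => (t, θ))
  have cT : ∀ t, Continuous (dt X t) := fun t =>
    (contDiff_dt hX).continuous.comp (by fun_prop : Continuous fun θ : ℝ => (t, θ))
  have hin1 : av (fun θ => X s θ 0 * dt X s θ 0) + av (fun θ => X s θ 1 * dt X s θ 1) +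
      av (fun θ => X s θ 2 * dt X s θ 2) = len s X := by
    have hc : ∀ j : Fin 3, Continuous fun θ => X s θ j * dt X s θ j := fun j =>
      ((EuclideanSpace.proj (𝕜 := ℝ) j).continuous.comp (cX s)).mul
        ((EuclideanSpace.proj (𝕜 := ℝ) j).continuous.comp (cT s))
    refine (av_add3 (f := fun j θ => X s θ j * dt X s θ j) hc).trans ?_
    unfold len
    congr 1
    funext θ
    have ho := (h.orthogonal θ).1
    have e : ∀ j : Fin 3, dt X s θ j = ‖dt X s θ‖ * X s θ j := fun j => by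
      have := congrArg (fun v : E3 => v j) ho
      simpa using this
    have h1 := norm_sq_eq (X s θ)
    rw [(h.boundary θ).1] at h1
    simp only
    rw [e 0, e 1, e 2]
    linear_combination (-‖dt X s θ‖) * h1
  have hin2 : av (fun θ => X (-s) θ 0 * dt X (-s) θ 0) + av (fun θ => X (-s) θ 1 * dt X (-s) θ 1) +
      av (fun θ => X (-s) θ 2 * dt X (-s) θ 2) = -len (-s) X := by
    have hc : ∀ j : Fin 3, Continuous fun θ => X (-s) θ j * dt X (-s) θ j := fun j =>
      ((EuclideanSpace.proj (𝕜 := ℝ) j).continuous.comp (cX (-s))).mul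
        ((EuclideanSpace.proj (𝕜 := ℝ) j).continuous.comp (cT (-s)))
    refine (av_add3 (f := fun j θ => X (-s) θ j * dt X (-s) θ j) hc).trans ?_
    have e0 : -len (-s) X = av (fun θ => -‖dt X (-s) θ‖) := by
      unfold len av
      rw [intervalIntegral.integral_neg]; ring
    rw [e0]
    congr 1
    funext θ
    have ho := (h.orthogonal θ).2
    have e : ∀ j : Fin 3, dt X (-s) θ j = -(‖dt X (-s) θ‖ * X (-s) θ j) := fun j => by
      have := congrArg (fun v : E3 => v j) ho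
      simpa using this
    have h1 := norm_sq_eq (X (-s) θ)
    rw [(h.boundary θ).2] at h1
    simp only
    rw [e 0, e 1, e 2]
    linear_combination ‖dt X (-s) θ‖ * h1
  exact ⟨hin1, hin2⟩

theorem end_bounds (h : IsFreeBoundaryMinimalAnnulus s X) :
    (1 - ‖centre s X‖ ^ 2 - (s ^ 2 + 1 / 2) * BB X) * (sinh (2 * s) / cosh (2 * s)) +
      s * BB X - kap s * qq s X ≤ len s X ∧
    (1 - ‖centre s X‖ ^ 2 - (s ^ 2 + 1 / 2) * BB X) * (sinh (2 * s) / cosh (2 * s)) +
      s * BB X - kap s * -qq s X ≤ len (-s) X := by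
  have hs := h.pos
  have hX := h.smooth
  have cX : ∀ t, Continuous (X t) := fun t =>
    hX.continuous.comp (by fun_prop : Continuous fun θ : ℝ => (t, θ))
  have cT : ∀ t, Continuous (dt X t) := fun t =>
    (contDiff_dt hX).continuous.comp (by fun_prop : Continuous fun θ : ℝ => (t, θ))
  have cR : ∀ t, Continuous (dθ X t) := fun t =>
    (contDiff_dθ hX).continuous.comp (by fun_prop : Continuous fun θ : ℝ => (t, θ))
  have hss : s ∈ Icc (-s) s := ⟨by linarith, le_rfl⟩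
  have hms : -s ∈ Icc (-s) s := ⟨le_rfl, by linarith⟩
  have b1 : av (fun θ => ‖X s θ‖ ^ 2) = 1 := by
    have : ∀ θ, ‖X s θ‖ ^ 2 = 1 := fun θ => by rw [(h.boundary θ).1]; norm_num
    simp_rw [this]
    exact av_one
  have b2 : av (fun θ => ‖X (-s) θ‖ ^ 2) = 1 := by
    have : ∀ θ, ‖X (-s) θ‖ ^ 2 = 1 := fun θ => by rw [(h.boundary θ).2]; norm_num
    simp_rw [this]
    exact av_one
  rw [av_norm_sq (cX s)] at b1
  rw [av_norm_sq (cX (-s))] at b2
  -- the function
  set g : Fin 3 → ℝ → ℝ := fun j t => av (fun θ => X t θ j ^ 2) - av (fun θ => X t θ j) ^ 2 with hg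
  set g' : Fin 3 → ℝ → ℝ := fun j t => 2 * (av (fun θ => X t θ j * dt X t θ j) -
    av (fun θ => X t θ j) * av (fun θ => dt X t θ j)) with hg'
  set g'' : Fin 3 → ℝ → ℝ := fun j t => 2 * (av (fun θ => dt X t θ j ^ 2) +
    av (fun θ => X t θ j * dt (dt X) t θ j) - av (fun θ => dt X t θ j) ^ 2 -
    av (fun θ => X t θ j) * av (fun θ => dt (dt X) t θ j)) with hg''
  have d1 : ∀ j t, HasDerivAt (g j) (g' j t) t := fun j t => (comp_of h j).var1 t
  have d2 : ∀ j t, HasDerivAt (g' j) (g'' j t) t := fun j t => (comp_of h j).var2 t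
  have D1 : ∀ t, HasDerivAt (fun t => g 0 t + g 1 t + g 2 t - BB X / 2)
      (g' 0 t + g' 1 t + g' 2 t) t := fun t =>
    (((d1 0 t).add (d1 1 t)).add (d1 2 t)).sub_const _
  have D2 : ∀ t, HasDerivAt (fun t => g' 0 t + g' 1 t + g' 2 t) (g'' 0 t + g'' 1 t + g'' 2 t) t :=
    fun t => ((d2 0 t).add (d2 1 t)).add (d2 2 t)
  have mean : ∀ j t, t ∈ Icc (-s) s → av (fun θ => X t θ j) = centre s X j + t * bb X j ∧
      av (fun θ => dt X t θ j) = bb X j := by
    intro j t ht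
    have := (comp_of h j).mean_lin hs t ht
    rw [centre_coord h]
    exact this
  have D3 : ∀ t ∈ Icc (-s) s, 4 * (g 0 t + g 1 t + g 2 t - BB X / 2) ≤
      g'' 0 t + g'' 1 t + g'' 2 t := by
    intro t ht
    have hw : ∀ j : Fin 3, g j t ≤ av (fun θ => dθ X t θ j ^ 2) := fun j => (comp_of h j).wirt t
    have hsl : ∀ j : Fin 3, g'' j t = 2 * (av (fun θ => dt X t θ j ^ 2) +
        av (fun θ => dθ X t θ j ^ 2) - bb X j ^ 2) := by
      intro j
      have a1 := (comp_of h j).slice ht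
      simp only at a1
      rw [hg'']
      simp only
      rw [a1.1, (mean j t ht).2]
      have a2 : av (fun θ => dt (dt X) t θ j) = 0 := a1.2
      rw [a2]
      ring
    have hconf : av (fun θ => dt X t θ 0 ^ 2) + av (fun θ => dt X t θ 1 ^ 2) +
        av (fun θ => dt X t θ 2 ^ 2) = av (fun θ => dθ X t θ 0 ^ 2) +
        av (fun θ => dθ X t θ 1 ^ 2) + av (fun θ => dθ X t θ 2 ^ 2) := by
      rw [← av_norm_sq (cT t), ← av_norm_sq (cR t)]
      congr 1
      funext θ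
      rw [(h.conformal t θ (abs_le.2 ht)).1]
    rw [hsl 0, hsl 1, hsl 2]
    have := hw 0
    have := hw 1
    have := hw 2
    unfold BB
    linarith
  obtain ⟨E1, E2⟩ := two_ends hs D1 D2 D3
  have hP := norm_sq_eq (centre s X)
  have m0 := mean 0 s hss
  have m1 := mean 1 s hss
  have m2 := mean 2 s hss
  have n0 := mean 0 (-s) hms
  have n1 := mean 1 (-s) hms
  have n2 := mean 2 (-s) hms
  have hin1 := (len_eq h).1
  have hin2 := (len_eq h).2
  have y1 : g 0 s + g 1 s + g 2 s - BB X / 2 =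
      (1 - ‖centre s X‖ ^ 2 - (s ^ 2 + 1 / 2) * BB X) - 2 * s * qq s X := by
    rw [hg]
    simp only
    rw [m0.1, m1.1, m2.1, hP]
    unfold BB qq
    linear_combination b1
  have y2 : g 0 (-s) + g 1 (-s) + g 2 (-s) - BB X / 2 =
      (1 - ‖centre s X‖ ^ 2 - (s ^ 2 + 1 / 2) * BB X) + 2 * s * qq s X := by
    rw [hg]
    simp only
    rw [n0.1, n1.1, n2.1, hP]
    unfold BB qq
    linear_combination b2
  have z1 : g' 0 s + g' 1 s + g' 2 s = 2 * (len s X - qq s X - s * BB X) := by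
    rw [hg']
    simp only
    rw [m0.1, m1.1, m2.1, m0.2, m1.2, m2.2, ← hin1]
    unfold BB qq
    ring
  have z2 : -(g' 0 (-s) + g' 1 (-s) + g' 2 (-s)) = 2 * (len (-s) X - -qq s X - s * BB X) := by
    rw [hg']
    simp only
    rw [n0.1, n1.1, n2.1, n0.2, n1.2, n2.2]
    have : len (-s) X = -(av (fun θ => X (-s) θ 0 * dt X (-s) θ 0) +
      av (fun θ => X (-s) θ 1 * dt X (-s) θ 1) +
      av (fun θ => X (-s) θ 2 * dt X (-s) θ 2)) := by rw [hin2]; ring
    rw [this]
    unfold BB qq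
    ring
  rw [z1] at E1
  rw [z2] at E2
  exact ⟨end_algebra hs y1 y2 E1, end_algebra (q := -qq s X) hs (by rw [y2]; ring)
    (by rw [y1]; ring) E2⟩

/-- The area is `π` times the sum of the two mean speeds. -/
theorem area_eq (h : IsFreeBoundaryMinimalAnnulus s X) :
    area s X = π * (len s X + len (-s) X) := by
  have h2 := two_area h
  have hl := len_eq h
  have e : ∀ f : ℝ → ℝ, (∫ θ in (0 : ℝ)..(2 * π), f θ) = 2 * π * av f := by
    intro f
    unfold av
    rw [← mul_assoc, mul_inv_cancel₀ (by positivity), one_mul]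
  rw [e, e, e, e, e, e] at h2
  rw [hl.1.symm, ← neg_neg (len (-s) X), hl.2.symm]
  linarith

end ends

section catenoid

theorem hasDerivAt_vec {f : ℝ → E3} {f' : E3} {t : ℝ}
    (h : ∀ j, HasDerivAt (fun t => f t j) (f' j) t) : HasDerivAt f f' t := by
  have h1 : HasDerivAt (fun t => (fun j => f t j : Fin 3 → ℝ)) (fun j => f' j) t :=
    hasDerivAt_pi.2 h
  exact (EuclideanSpace.equiv (Fin 3) ℝ).symm.hasFDerivAt.comp_hasDerivAt t h1

/-- a vector with the given coordinates times `a` -/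
noncomputable def vec (a x y z : ℝ) : E3 := a • !₂[x, y, z]

@[simp] theorem vec_zero' (a x y z : ℝ) : vec a x y z 0 = a * x := by simp [vec]
@[simp] theorem vec_one' (a x y z : ℝ) : vec a x y z 1 = a * y := by simp [vec]
@[simp] theorem vec_two' (a x y z : ℝ) : vec a x y z 2 = a * z := by simp [vec]

theorem norm_vec_sq (a x y z : ℝ) : ‖vec a x y z‖ ^ 2 = a ^ 2 * (x ^ 2 + y ^ 2 + z ^ 2) := by
  rw [norm_sq_eq, vec_zero', vec_one', vec_two']; ring

theorem hasDerivAt_vec' {a : ℝ} {x y z : ℝ → ℝ} {x' y' z' t : ℝ} (hx : HasDerivAt x x' t)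
    (hy : HasDerivAt y y' t) (hz : HasDerivAt z z' t) :
    HasDerivAt (fun t => vec a (x t) (y t) (z t)) (vec a x' y' z') t := by
  apply hasDerivAt_vec
  intro j
  fin_cases j
  · simpa using hx.const_mul a
  · simpa using hy.const_mul a
  · simpa using hz.const_mul a

theorem catenoid_eq (k t θ : ℝ) :
    catenoid k t θ = vec (k * cosh k)⁻¹ (cosh t * cos θ) (cosh t * sin θ) t := rfl

theorem dt_catenoid (k t θ : ℝ) :
    dt (catenoid k) t θ = vec (k * cosh k)⁻¹ (sinh t * cos θ) (sinh t * sin θ) 1 :=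
  (hasDerivAt_vec' ((Real.hasDerivAt_cosh t).mul_const _) ((Real.hasDerivAt_cosh t).mul_const _)
    (hasDerivAt_id t)).deriv

theorem dtt_catenoid (k t θ : ℝ) :
    dt (dt (catenoid k)) t θ = vec (k * cosh k)⁻¹ (cosh t * cos θ) (cosh t * sin θ) 0 := by
  have : (fun τ => dt (catenoid k) τ θ) = fun τ => vec (k * cosh k)⁻¹ (sinh τ * cos θ)
      (sinh τ * sin θ) 1 := funext fun τ => dt_catenoid k τ θ
  rw [dt, this]
  exact (hasDerivAt_vec' ((Real.hasDerivAt_sinh t).mul_const _)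
    ((Real.hasDerivAt_sinh t).mul_const _) (hasDerivAt_const t 1)).deriv

theorem dθ_catenoid (k t θ : ℝ) :
    dθ (catenoid k) t θ = vec (k * cosh k)⁻¹ (cosh t * -sin θ) (cosh t * cos θ) 0 :=
  (hasDerivAt_vec' ((Real.hasDerivAt_cos θ).const_mul _) ((Real.hasDerivAt_sin θ).const_mul _)
    (hasDerivAt_const θ t)).deriv

theorem dθθ_catenoid (k t θ : ℝ) :
    dθ (dθ (catenoid k)) t θ = vec (k * cosh k)⁻¹ (cosh t * -cos θ) (cosh t * -sin θ) 0 := by
  have : (fun η => dθ (catenoid k) t η) = fun η => vec (k * cosh k)⁻¹ (cosh t * -sin η)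
      (cosh t * cos η) 0 := funext fun η => dθ_catenoid k t η
  rw [dθ, this]
  exact (hasDerivAt_vec' ((Real.hasDerivAt_sin θ).neg.const_mul _)
    ((Real.hasDerivAt_cos θ).const_mul _) (hasDerivAt_const θ 0)).deriv

theorem norm_eq_of_sq {v : E3} {r : ℝ} (hr : 0 ≤ r) (h : ‖v‖ ^ 2 = r ^ 2) : ‖v‖ = r :=
  (sq_eq_sq₀ (norm_nonneg _) hr).1 h

theorem norm_dt_catenoid {k : ℝ} (hk : 0 < k) (t θ : ℝ) :
    ‖dt (catenoid k) t θ‖ = (k * cosh k)⁻¹ * cosh t := by
  have := cosh_pos k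
  have := cosh_pos t
  apply norm_eq_of_sq (by positivity)
  rw [dt_catenoid, norm_vec_sq]
  have h1 := sin_sq_add_cos_sq θ
  have h2 := cosh_sq t
  linear_combination (k * cosh k)⁻¹ ^ 2 * (sinh t ^ 2 * h1 - h2)

theorem norm_dθ_catenoid {k : ℝ} (hk : 0 < k) (t θ : ℝ) :
    ‖dθ (catenoid k) t θ‖ = (k * cosh k)⁻¹ * cosh t := by
  have := cosh_pos k
  have := cosh_pos t
  apply norm_eq_of_sq (by positivity)
  rw [dθ_catenoid, norm_vec_sq]
  have h1 := sin_sq_add_cos_sq θ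
  linear_combination (k * cosh k)⁻¹ ^ 2 * cosh t ^ 2 * h1

theorem norm_catenoid_sq (k t θ : ℝ) :
    ‖catenoid k t θ‖ ^ 2 = (k * cosh k)⁻¹ ^ 2 * (cosh t ^ 2 + t ^ 2) := by
  rw [catenoid_eq, norm_vec_sq]
  congr 1
  linear_combination cosh t ^ 2 * sin_sq_add_cos_sq θ

theorem scale_eq {k : ℝ} (hk0 : 0 < k) (hk : k * sinh k = cosh k) :
    (k * cosh k)⁻¹ ^ 2 * (cosh k ^ 2 + k ^ 2) = 1 := by
  have hc := cosh_pos k
  have h1 : cosh k ^ 2 + k ^ 2 = (k * cosh k) ^ 2 := by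
    have e : cosh k ^ 2 - sinh k ^ 2 = 1 := cosh_sq_sub_sinh_sq k
    rw [mul_pow]
    have h2 : cosh k ^ 2 = k ^ 2 * sinh k ^ 2 := by rw [← hk]; ring
    linear_combination h2 - k ^ 2 * e
  rw [h1, ← mul_pow, inv_mul_cancel₀ (by positivity), one_pow]

theorem cosh_sq_add_lt {k t : ℝ} (h : |t| < k) : cosh t ^ 2 + t ^ 2 < cosh k ^ 2 + k ^ 2 := by
  have hk : 0 < k := (abs_nonneg t).trans_lt h
  have h1 : cosh t < cosh k := by rw [cosh_lt_cosh, abs_of_pos hk]; exact h
  have h2 : t ^ 2 < k ^ 2 := by rw [← sq_abs t]; exact pow_lt_pow_left₀ h (abs_nonneg t) two_ne_zero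
  have := cosh_pos t
  nlinarith

theorem contDiff_catenoid (k : ℝ) : ContDiff ℝ 2 (fun p : ℝ × ℝ => catenoid k p.1 p.2) := by
  unfold catenoid
  apply ContDiff.const_smul
  rw [contDiff_euclidean]
  intro j
  fin_cases j
  · simp only [Fin.zero_eta, Fin.isValue, Matrix.cons_val_zero]
    exact (Real.contDiff_cosh.comp contDiff_fst).mul (Real.contDiff_cos.comp contDiff_snd)
  · simp only [Fin.mk_one, Fin.isValue, Matrix.cons_val_one, Matrix.cons_val_zero]
    exact (Real.contDiff_cosh.comp contDiff_fst).mul (Real.contDiff_sin.comp contDiff_snd)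
  · exact contDiff_fst

theorem catenoid_isFBMA {k : ℝ} (hk0 : 0 < k) (hk : k * sinh k = cosh k) :
    IsFreeBoundaryMinimalAnnulus k (catenoid k) where
  pos := hk0
  smooth := contDiff_catenoid k
  periodic := fun t θ => by
    rw [catenoid_eq, catenoid_eq, cos_add_two_pi, sin_add_two_pi]
  interior := fun t θ ht => by
    have h1 := norm_catenoid_sq k t θ
    have hc := cosh_pos k
    have h2 : ‖catenoid k t θ‖ ^ 2 < 1 := by
      rw [h1, ← scale_eq hk0 hk]
      exact mul_lt_mul_of_pos_left (cosh_sq_add_lt ht) (by positivity)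
    exact (sq_lt_one_iff₀ (norm_nonneg _)).1 h2
  boundary := fun θ => by
    constructor
    · apply norm_eq_of_sq zero_le_one
      rw [norm_catenoid_sq, scale_eq hk0 hk, one_pow]
    · apply norm_eq_of_sq zero_le_one
      rw [norm_catenoid_sq, cosh_neg, neg_sq, scale_eq hk0 hk, one_pow]
  immersed := fun t θ _ => by
    rw [← norm_ne_zero_iff, norm_dt_catenoid hk0]
    have := cosh_pos k
    have := cosh_pos t
    positivity
  conformal := fun t θ _ => by
    refine ⟨by rw [norm_dt_catenoid hk0, norm_dθ_catenoid hk0], ?_⟩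
    rw [dt_catenoid, dθ_catenoid, PiLp.inner_apply, Fin.sum_univ_three]
    simp only [vec_zero', vec_one', vec_two', RCLike.inner_apply, conj_trivial]
    ring
  harmonic := fun t θ _ => by
    rw [dtt_catenoid, dθθ_catenoid]
    ext j
    fin_cases j
    · simp
    · simp
    · simp
  orthogonal := fun θ => by
    have hc := cosh_pos k
    have e : (k * cosh k)⁻¹ * cosh k = k⁻¹ := by field_simp
    have hs : sinh k = k⁻¹ * cosh k := by rw [← hk]; field_simp
    constructor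
    · rw [norm_dt_catenoid hk0, e, dt_catenoid, catenoid_eq]
      ext j
      fin_cases j
      · simp [hs]; ring
      · simp [hs]; ring
      · simp; field_simp
    · rw [norm_dt_catenoid hk0, cosh_neg, e, dt_catenoid, catenoid_eq]
      ext j
      fin_cases j
      · simp [hs]; ring
      · simp [hs]; ring
      · simp; field_simp

theorem catenoid_embedded {k : ℝ} (hk0 : 0 < k) : IsEmbedded k (catenoid k) := by
  intro t θ t' θ' _ _ h
  have hc := cosh_pos k
  have ha : (k * cosh k)⁻¹ ≠ 0 := by positivity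
  rw [catenoid_eq, catenoid_eq] at h
  have h0 := congrArg (fun v : E3 => v 0) h
  have h1 := congrArg (fun v : E3 => v 1) h
  have h2 := congrArg (fun v : E3 => v 2) h
  simp only [vec_zero', vec_one', vec_two'] at h0 h1 h2
  have ht : t = t' := mul_left_cancel₀ ha h2
  subst ht
  refine ⟨rfl, ?_⟩
  have hct := (cosh_pos t).ne'
  have hcos : cos θ = cos θ' := mul_left_cancel₀ hct (mul_left_cancel₀ ha h0)
  have hsin : sin θ = sin θ' := mul_left_cancel₀ hct (mul_left_cancel₀ ha h1)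
  have h3 : (θ : Real.Angle) = (θ' : Real.Angle) := Real.Angle.cos_sin_inj hcos hsin
  rw [Real.Angle.angle_eq_iff_two_pi_dvd_sub] at h3
  obtain ⟨m, hm⟩ := h3
  refine ⟨-m, ?_⟩
  push_cast
  linarith

theorem centre_catenoid (k : ℝ) : centre k (catenoid k) = 0 := by
  have hcont : ∀ t, Continuous (catenoid k t) := fun t =>
    cont_slice3 (contDiff_catenoid k).continuous t
  have h0 : ∀ t, (∫ θ in (0 : ℝ)..(2 * π), catenoid k t θ) 0 = 0 := by
    intro t
    rw [int_coord (hcont t)]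
    simp_rw [catenoid_eq, vec_zero']
    rw [intervalIntegral.integral_const_mul, intervalIntegral.integral_const_mul, integral_cos]
    simp
  have h1 : ∀ t, (∫ θ in (0 : ℝ)..(2 * π), catenoid k t θ) 1 = 0 := by
    intro t
    rw [int_coord (hcont t)]
    simp_rw [catenoid_eq, vec_one']
    rw [intervalIntegral.integral_const_mul, intervalIntegral.integral_const_mul, integral_sin]
    simp
  have h2 : ∀ t, (∫ θ in (0 : ℝ)..(2 * π), catenoid k t θ) 2 = (2 * π) * ((k * cosh k)⁻¹ * t) := by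
    intro t
    rw [int_coord (hcont t)]
    simp_rw [catenoid_eq, vec_two']
    rw [intervalIntegral.integral_const, smul_eq_mul, sub_zero]
  have hz : ∀ v : E3, v 0 = 0 → v 1 = 0 → v 2 = 0 → v = 0 := by
    intro v a b c
    have : ‖v‖ ^ 2 = 0 := by rw [norm_sq_eq, a, b, c]; norm_num
    exact norm_eq_zero.1 (pow_eq_zero_iff two_ne_zero |>.1 this)
  unfold centre
  have hsum : (∫ θ in (0 : ℝ)..(2 * π), catenoid k k θ) +
      (∫ θ in (0 : ℝ)..(2 * π), catenoid k (-k) θ) = 0 := by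
    apply hz
    · rw [PiLp.add_apply, h0, h0, add_zero]
    · rw [PiLp.add_apply, h1, h1, add_zero]
    · rw [PiLp.add_apply, h2, h2]; ring
  rw [hsum, smul_zero]

theorem area_catenoid {k : ℝ} (hk0 : 0 < k) (hk : k * sinh k = cosh k) :
    area k (catenoid k) = 2 * π / k := by
  unfold area
  have hc := cosh_pos k
  have e1 : ∀ t, (∫ θ in (0 : ℝ)..(2 * π), ‖dt (catenoid k) t θ‖ * ‖dθ (catenoid k) t θ‖) =
      2 * π * (k * cosh k)⁻¹ ^ 2 * cosh t ^ 2 := by
    intro t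
    simp_rw [norm_dt_catenoid hk0, norm_dθ_catenoid hk0]
    rw [intervalIntegral.integral_const, smul_eq_mul]
    ring
  simp_rw [e1]
  rw [intervalIntegral.integral_const_mul]
  have hd : ∀ t : ℝ, HasDerivAt (fun t => (t + sinh t * cosh t) / 2) (cosh t ^ 2) t := by
    intro t
    have := ((hasDerivAt_id t).add ((Real.hasDerivAt_sinh t).mul (Real.hasDerivAt_cosh t))).div_const 2
    refine this.congr_deriv ?_
    have := cosh_sq t
    linear_combination (-1 / 2 : ℝ) * this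
  rw [intervalIntegral.integral_eq_sub_of_hasDerivAt (fun t _ => hd t)
    ((by fun_prop : Continuous fun t : ℝ => cosh t ^ 2).intervalIntegrable _ _)]
  rw [sinh_neg, cosh_neg]
  have h1 := scale_eq hk0 hk
  have h2 := phi_root hk0 hk
  unfold phi at h2
  have hd := dd_pos k
  unfold dd at hd
  rw [sinh_two_mul, div_eq_iff hd.ne'] at h2
  have e3 : 2 * π * (k * cosh k)⁻¹ ^ 2 *
      ((k + sinh k * cosh k) / 2 - (-k + -sinh k * cosh k) / 2) =
      π * (k * cosh k)⁻¹ ^ 2 * (2 * sinh k * cosh k + 2 * k) := by ring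
  rw [e3, h2]
  have e4 : π * (k * cosh k)⁻¹ ^ 2 * (2 / k * (cosh k ^ 2 + k ^ 2)) =
      2 * π / k * ((k * cosh k)⁻¹ ^ 2 * (cosh k ^ 2 + k ^ 2)) := by ring
  rw [e4, h1, mul_one]

end catenoid

section final

variable {s k : ℝ} {X : ℝ → ℝ → E3}

theorem circle_len (h : IsFreeBoundaryMinimalAnnulus s X) {t : ℝ} (ht : t = s ∨ t = -s) :
    circleLength t X = 2 * π * len t X := by
  have hs := h.pos
  have hts : |t| ≤ s := by
    rcases ht with rfl | rfl
    · rw [abs_of_pos hs]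
    · rw [abs_neg, abs_of_pos hs]
  have : ∀ θ, ‖dθ X t θ‖ = ‖dt X t θ‖ := fun θ => (h.conformal t θ hts).1.symm
  unfold circleLength len av
  simp_rw [this]
  rw [← mul_assoc, mul_inv_cancel₀ (by positivity), one_mul]

theorem len_bound (h : IsFreeBoundaryMinimalAnnulus s X) {t : ℝ} (ht : t = s ∨ t = -s) :
    0 < len t X ∧ len t X ^ 2 - len t X ^ 4 ≤ BB X := by
  have hs := h.pos
  rcases ht with rfl | rfl
  · exact arc_bound h (ε := 1) ⟨by linarith, le_rfl⟩ (by norm_num) (fun θ => (h.boundary θ).1)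
      (fun θ => by rw [one_mul]; exact (h.orthogonal θ).1)
  · exact arc_bound h (ε := -1) ⟨le_rfl, by linarith⟩ (by norm_num) (fun θ => (h.boundary θ).2)
      (fun θ => by
        have := (h.orthogonal θ).2
        rw [neg_one_mul, neg_smul]; exact this)

theorem long_cosh (hk0 : 0 < k) (hk : k * sinh k = cosh k) (hks : k ≤ s) : 3 / 2 ≤ cosh s := by
  apply cosh_ge_of_long (by linarith)
  have := root_strictMono.monotoneOn (mem_Ici.2 hk0.le) (mem_Ici.2 (hk0.le.trans hks)) hks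
  linarith

theorem BB_nonneg : 0 ≤ BB X := by unfold BB; positivity

theorem BB_le (h : IsFreeBoundaryMinimalAnnulus s X) (hk0 : 0 < k) (hk : k * sinh k = cosh k)
    (hks : k ≤ s) : BB X * k ^ 4 ≤ k ^ 2 - 1 ∧
      (k < s ∨ centre s X ≠ 0 → BB X * k ^ 4 < k ^ 2 - 1) := by
  have hf := flux_bound h (long_cosh hk0 hk hks)
  have hB := @BB_nonneg X
  have hk1 := one_lt_root hk0 hk
  have a2 := dd_root hk
  have a3 : 0 < k ^ 2 - 1 := by nlinarith
  have hP : 0 ≤ ‖centre s X‖ ^ 2 := sq_nonneg _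
  have a1 : BB X * dd k ≤ 1 := by
    have := mul_le_mul_of_nonneg_left (dd_mono hk0.le hks) hB
    linarith
  rw [← a2]
  constructor
  · nlinarith
  · intro hor
    have a4 : BB X * dd k < 1 := by
      rcases hor with h1 | h1
      · rcases hB.eq_or_lt with h2 | h2
        · rw [← h2]; norm_num
        · have := mul_lt_mul_of_pos_left (dd_strict hk0.le h1) h2
          linarith
      · have := mul_le_mul_of_nonneg_left (dd_mono hk0.le hks) hB
        have h3 : 0 < ‖centre s X‖ ^ 2 := by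
          have := norm_pos_iff.2 h1
          positivity
        linarith
    nlinarith

theorem qq_sq : qq s X ^ 2 ≤ ‖centre s X‖ ^ 2 * BB X := by
  rw [norm_sq_eq]
  unfold qq BB
  nlinarith [sq_nonneg (centre s X 0 * bb X 1 - centre s X 1 * bb X 0),
    sq_nonneg (centre s X 0 * bb X 2 - centre s X 2 * bb X 0),
    sq_nonneg (centre s X 1 * bb X 2 - centre s X 2 * bb X 1)]

/-- large branch if the length is above the threshold -/
theorem threshold {l B : ℝ} (hk1 : 1 < k) (hk2 : k ≤ 1.21) (hB : B * k ^ 4 ≤ k ^ 2 - 1)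
    (h : l ^ 2 - l ^ 4 ≤ B) (hl : √(1 - 1 / k ^ 2) < l) : 1 / 2 ≤ l ^ 2 := by
  by_contra hcon
  push Not at hcon
  have hk0 : 0 < k := by linarith
  have hk3 : 0 < k ^ 2 := by positivity
  have hu2 : k ^ 2 ≤ 1.4641 := by nlinarith
  have hu : 1 / k ^ 2 ≤ 1 := by rw [div_le_one hk3]; nlinarith
  have h1 : 1 - 1 / k ^ 2 < l ^ 2 := by
    have := pow_lt_pow_left₀ hl (sqrt_nonneg _) two_ne_zero
    rwa [sq_sqrt (by linarith)] at this
  have hu3 : 1 / 2 < 1 / k ^ 2 := by
    rw [div_lt_div_iff₀ (by norm_num) hk3]; linarith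
  set u := 1 / k ^ 2 with hudef
  have h2 : 0 < (l ^ 2 - (1 - u)) * (u - l ^ 2) := mul_pos (by linarith) (by linarith)
  have h3 : B ≤ u - u ^ 2 := by
    have e : u - u ^ 2 = (k ^ 2 - 1) / k ^ 4 := by
      rw [hudef]; field_simp
    rw [e, le_div_iff₀ (by positivity)]
    exact hB
  nlinarith

theorem main_len (h : IsFreeBoundaryMinimalAnnulus s X) (hk0 : 0 < k)
    (hk : k * sinh k = cosh k) (hks : k ≤ s)
    (hor : ‖centre s X‖ ≤ 1 / 4 ∨
      (2 ≤ s ∧ 4 * s ^ 2 ≤ (1 - ‖centre s X‖ ^ 2) * (cosh s ^ 2 + s ^ 2)) ∨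
      (2 * π * √(1 - 1 / k ^ 2) < circleLength s X ∧
        2 * π * √(1 - 1 / k ^ 2) < circleLength (-s) X)) :
    1 / 2 ≤ len s X ^ 2 ∧ 1 / 2 ≤ len (-s) X ^ 2 := by
  have hs := h.pos
  have hk1 := one_lt_root hk0 hk
  have hk2 := root_le hk0 hk
  have hf := flux_bound h (long_cosh hk0 hk hks)
  have hB := @BB_nonneg X
  have hq := @qq_sq s X
  have hq' : (-qq s X) ^ 2 ≤ ‖centre s X‖ ^ 2 * BB X := by rw [neg_sq]; exact hq
  obtain ⟨-, w1⟩ := len_bound h (t := s) (Or.inl rfl)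
  obtain ⟨-, w2⟩ := len_bound h (t := -s) (Or.inr rfl)
  obtain ⟨e1, e2⟩ := end_bounds h
  have hP : 0 ≤ ‖centre s X‖ ^ 2 := sq_nonneg _
  rcases hor with h1 | h1 | h1
  · have hP16 : ‖centre s X‖ ^ 2 ≤ 1 / 16 := by
      have := pow_le_pow_left₀ (norm_nonneg _) h1 2
      norm_num at this ⊢
      linarith
    exact ⟨branch_A hk0 hk hks hP hP16 hB hf hq w1 e1,
      branch_A hk0 hk hks hP hP16 hB hf hq' w2 e2⟩
  · obtain ⟨h2, h3⟩ := h1
    have hx : 4 * s ^ 2 ≤ (1 - ‖centre s X‖ ^ 2) * dd s := h3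
    have hP1 : ‖centre s X‖ ^ 2 < 1 := by
      by_contra hc
      push Not at hc
      have : (1 - ‖centre s X‖ ^ 2) * dd s ≤ 0 :=
        mul_nonpos_of_nonpos_of_nonneg (by linarith) (dd_pos s).le
      have : 0 < 4 * s ^ 2 := by positivity
      linarith
    exact ⟨branch_C h2 hP hP1 hx hB hf hq w1 e1, branch_C h2 hP hP1 hx hB hf hq' w2 e2⟩
  · rw [circle_len h (Or.inl rfl), circle_len h (Or.inr rfl)] at h1
    have hb := (BB_le h hk0 hk hks).1
    exact ⟨threshold hk1 hk2 hb w1 (lt_of_mul_lt_mul_left h1.1 (by positivity)),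
      threshold hk1 hk2 hb w2 (lt_of_mul_lt_mul_left h1.2 (by positivity))⟩

end final

end Pool.MP9f6534
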