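import Pool.Agent.Lib.MP_9f6534_gt.Wirt

open Real MeasureTheory Set Filter Topology

namespace Pool.MP9f6534

/-- Reparametrisation by a multiple of the arclength. -/
theorem exists_reparam {lam : ℝ → ℝ} (hc : Continuous lam) (hpos : ∀ θ, 0 < lam θ)
    (hper : ∀ θ, lam (θ + 2 * π) = lam θ) {l : ℝ}
    (hl : l = (2 * π)⁻¹ * ∫ θ in (0 : ℝ)..(2 * π), lam θ) :
    0 < l ∧ ∃ σ τ : ℝ → ℝ, (∀ θ, HasDerivAt σ (lam θ / l) θ) ∧ σ 0 = 0 ∧ σ (2 * π) = 2 * π ∧
      (∀ θ, τ (σ θ) = θ) ∧ (∀ v, HasDerivAt τ (l / lam (τ v)) v) := by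
  have hpi := pi_pos
  have hI : 0 < ∫ θ in (0 : ℝ)..(2 * π), lam θ :=
    intervalIntegral.intervalIntegral_pos_of_pos (hc.intervalIntegrable _ _) hpos (by positivity)
  have hl0 : 0 < l := by rw [hl]; positivity
  refine ⟨hl0, ?_⟩
  -- lower bound of lam
  obtain ⟨m, hm0, hm⟩ : ∃ m, 0 < m ∧ ∀ θ, m ≤ lam θ := by
    obtain ⟨x, hx, hmin⟩ := (isCompact_Icc (a := (0 : ℝ)) (b := 2 * π)).exists_isMinOn
      ⟨0, by simp [hpi.le]⟩ hc.continuousOn
    refine ⟨lam x, hpos x, fun θ => ?_⟩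
    have hp : Function.Periodic lam (2 * π) := hper
    obtain ⟨y, hy, hy2⟩ := hp.exists_mem_Ico₀ (by positivity) θ
    rw [hy2]
    exact hmin (Ico_subset_Icc_self hy)
  set σ : ℝ → ℝ := fun θ => (∫ u in (0 : ℝ)..θ, lam u) / l with hσ
  have hσd : ∀ θ, HasDerivAt σ (lam θ / l) θ := fun θ =>
    (hc.integral_hasStrictDerivAt 0 θ).hasDerivAt.div_const l
  have hσc : Continuous σ := continuous_iff_continuousAt.2 fun θ => (hσd θ).continuousAt
  have hmono : StrictMono σ := by
    apply strictMono_of_deriv_pos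
    intro θ
    rw [(hσd θ).deriv]
    exact div_pos (hpos θ) hl0
  -- growth
  have hgrow : ∀ θ, 0 ≤ θ → m / l * θ ≤ σ θ := by
    intro θ hθ
    have : ∫ u in (0 : ℝ)..θ, m ≤ ∫ u in (0 : ℝ)..θ, lam u :=
      intervalIntegral.integral_mono_on hθ (continuous_const.intervalIntegrable _ _)
        (hc.intervalIntegrable _ _) (fun u _ => hm u)
    rw [intervalIntegral.integral_const, smul_eq_mul, sub_zero] at this
    rw [hσ]
    simp only
    rw [div_mul_eq_mul_div, div_le_div_iff_of_pos_right hl0, mul_comm]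
    exact this
  have hgrow' : ∀ θ, θ ≤ 0 → σ θ ≤ m / l * θ := by
    intro θ hθ
    have : ∫ u in θ..(0 : ℝ), m ≤ ∫ u in θ..(0 : ℝ), lam u :=
      intervalIntegral.integral_mono_on hθ (continuous_const.intervalIntegrable _ _)
        (hc.intervalIntegrable _ _) (fun u _ => hm u)
    rw [intervalIntegral.integral_const, smul_eq_mul, zero_sub] at this
    have h2 : (∫ u in (0 : ℝ)..θ, lam u) = -∫ u in θ..(0 : ℝ), lam u :=
      intervalIntegral.integral_symm _ _
    rw [hσ]
    simp only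
    rw [div_mul_eq_mul_div, div_le_div_iff_of_pos_right hl0, h2]
    linarith
  have hml : 0 < m / l := div_pos hm0 hl0
  have htop : Tendsto σ atTop atTop := by
    apply tendsto_atTop_mono' atTop (f₁ := fun θ => m / l * θ)
    · filter_upwards [eventually_ge_atTop 0] with θ hθ using hgrow θ hθ
    · exact tendsto_id.const_mul_atTop hml
  have hbot : Tendsto σ atBot atBot := by
    apply tendsto_atBot_mono' atBot (f₂ := σ) (f₁ := fun θ => m / l * θ)
    · filter_upwards [eventually_le_atBot 0] with θ hθ using hgrow' θ hθ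
    · exact tendsto_id.const_mul_atBot hml
  have hsurj : Function.Surjective σ := hσc.surjective htop hbot
  set e : ℝ ≃o ℝ := hmono.orderIsoOfSurjective σ hsurj with he
  have hτσ : ∀ θ, e.symm (σ θ) = θ := fun θ => e.symm_apply_apply θ
  have hστ : ∀ v, σ (e.symm v) = v := fun v => e.apply_symm_apply v
  refine ⟨σ, e.symm, hσd, ?_, ?_, hτσ, ?_⟩
  · simp [hσ]
  · rw [hσ]
    simp only
    rw [hl]
    field_simp
  · intro v
    have h1 := (hσd (e.symm v)).of_local_left_inverse (g := e.symm) (a := v)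
      e.symm.continuous.continuousAt (div_pos (hpos _) hl0).ne'
      (Eventually.of_forall hστ)
    rwa [inv_div] at h1

/-- Wirtinger's inequality with respect to arclength. -/
theorem arc_wirt {lam : ℝ → ℝ} (hc : Continuous lam) (hpos : ∀ θ, 0 < lam θ)
    (hper : ∀ θ, lam (θ + 2 * π) = lam θ) {l : ℝ}
    (hl : l = (2 * π)⁻¹ * ∫ θ in (0 : ℝ)..(2 * π), lam θ)
    {f f' : ℝ → ℝ} (hf : ∀ θ, HasDerivAt f (f' θ) θ) (hf' : Continuous f')
    (hfper : f (2 * π) = f 0) :
    (2 * π)⁻¹ * (∫ θ in (0 : ℝ)..(2 * π), f θ ^ 2 * lam θ) / l -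
      ((2 * π)⁻¹ * (∫ θ in (0 : ℝ)..(2 * π), f θ * lam θ) / l) ^ 2 ≤
    l * ((2 * π)⁻¹ * ∫ θ in (0 : ℝ)..(2 * π), f' θ ^ 2 / lam θ) := by
  obtain ⟨hl0, σ, τ, hσ, hσ0, hσ1, hτσ, hτ⟩ := exists_reparam hc hpos hper hl
  have hfc : Continuous f := continuous_iff_continuousAt.2 fun θ => (hf θ).continuousAt
  have hτc : Continuous τ := continuous_iff_continuousAt.2 fun θ => (hτ θ).continuousAt
  have hτ0 : τ 0 = 0 := by
    conv_lhs => rw [← hσ0]
    rw [hτσ]
  have hτ1 : τ (2 * π) = 2 * π := by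
    conv_lhs => rw [← hσ1]
    rw [hτσ]
  have hy : ∀ v, HasDerivAt (fun v => f (τ v)) (f' (τ v) * (l / lam (τ v))) v := fun v =>
    (hf (τ v)).comp v (hτ v)
  have hy' : Continuous fun v => f' (τ v) * (l / lam (τ v)) := by
    apply (hf'.comp hτc).mul
    exact continuous_const.div (hc.comp hτc) (fun v => (hpos _).ne')
  have hw := wirt hy hy' (by simp only [hτ0, hτ1, hfper])
  have hchange : ∀ g : ℝ → ℝ, Continuous g →
      (∫ v in (0 : ℝ)..(2 * π), g v) = (∫ θ in (0 : ℝ)..(2 * π), g (σ θ) * lam θ) / l := by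
    intro g hg
    have := intervalIntegral.integral_comp_mul_deriv (a := 0) (b := 2 * π) (f := σ)
      (f' := fun θ => lam θ / l) (g := g) (fun θ _ => hσ θ)
      ((hc.div_const l).continuousOn) hg
    rw [hσ0, hσ1] at this
    rw [← this, ← intervalIntegral.integral_div]
    apply intervalIntegral.integral_congr
    intro θ _
    simp only [Function.comp]
    ring
  rw [hchange (fun v => f (τ v) ^ 2) ((hfc.comp hτc).pow 2),
    hchange (fun v => f (τ v)) (hfc.comp hτc),
    hchange (fun v => (f' (τ v) * (l / lam (τ v))) ^ 2) (hy'.pow 2)] at hw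
  simp only [hτσ] at hw
  have e : (∫ θ in (0 : ℝ)..(2 * π), (f' θ * (l / lam θ)) ^ 2 * lam θ) / l =
      l * ∫ θ in (0 : ℝ)..(2 * π), f' θ ^ 2 / lam θ := by
    rw [← intervalIntegral.integral_div, ← intervalIntegral.integral_const_mul]
    apply intervalIntegral.integral_congr
    intro θ _
    have := (hpos θ).ne'
    simp only
    field_simp
  rw [e] at hw
  calc _ = _ := by ring
    _ ≤ _ := hw
    _ = _ := by ring

end Pool.MP9f6534
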