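import Pool.Agent.Lib.MP_9f6534_gt.Ode

open Real MeasureTheory Set Filter Topology
open scoped ComplexConjugate

namespace Pool.MP9f6534

/-- A real function on the cylinder, harmonic for `|t| ≤ s`, with its derivatives. -/
structure Comp (s : ℝ) (x xt xtt xr xrr : ℝ → ℝ → ℝ) : Prop where
  cx : Continuous (Function.uncurry x)
  cxt : Continuous (Function.uncurry xt)
  cxtt : Continuous (Function.uncurry xtt)
  cxr : Continuous (Function.uncurry xr)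
  cxrr : Continuous (Function.uncurry xrr)
  dxt : ∀ t θ, HasDerivAt (fun τ => x τ θ) (xt t θ) t
  dxtt : ∀ t θ, HasDerivAt (fun τ => xt τ θ) (xtt t θ) t
  dxr : ∀ t θ, HasDerivAt (fun η => x t η) (xr t θ) θ
  dxrr : ∀ t θ, HasDerivAt (fun η => xr t η) (xrr t θ) θ
  per : ∀ t, x t (2 * π) = x t 0
  perr : ∀ t, xr t (2 * π) = xr t 0
  harm : ∀ t ∈ Icc (-s) s, ∀ θ, xtt t θ + xrr t θ = 0

variable {s : ℝ} {x xt xtt xr xrr : ℝ → ℝ → ℝ}

theorem cont_slice {f : ℝ → ℝ → ℝ} (hf : Continuous (Function.uncurry f)) (t : ℝ) :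
    Continuous (f t) :=
  hf.comp (by fun_prop : Continuous fun θ : ℝ => (t, θ))

theorem Comp.deriv1 (h : Comp s x xt xtt xr xrr) (n : ℤ) (t : ℝ) :
    HasDerivAt (fun t => fc (x t) n) (fc (xt t) n) t :=
  hasDerivAt_fc (cont_slice h.cx) h.cxt h.dxt n t

theorem Comp.deriv2 (h : Comp s x xt xtt xr xrr) (n : ℤ) (t : ℝ) :
    HasDerivAt (fun t => fc (xt t) n) (fc (xtt t) n) t :=
  hasDerivAt_fc (cont_slice h.cxt) h.cxtt h.dxtt n t

theorem Comp.fc_r (h : Comp s x xt xtt xr xrr) (n : ℤ) (t : ℝ) :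
    fc (xr t) n = Complex.I * n * fc (x t) n :=
  fc_deriv (h.dxr t) (cont_slice h.cxr t) (h.per t) n

theorem Comp.fc_tt (h : Comp s x xt xtt xr xrr) (n : ℤ) (t : ℝ) (ht : t ∈ Icc (-s) s) :
    fc (xtt t) n = (n : ℂ) ^ 2 * fc (x t) n := by
  have h1 : fc (xrr t) n = Complex.I * n * fc (xr t) n :=
    fc_deriv (h.dxrr t) (cont_slice h.cxrr t) (h.perr t) n
  have h2 : xtt t = fun θ => -xrr t θ := by
    funext θ
    have := h.harm t ht θ
    linarith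
  rw [h2, fc_neg, h1, h.fc_r]
  linear_combination (-(n : ℂ) ^ 2 * fc (x t) n) * Complex.I_sq

/-- the defect of the `n`-th mode -/
noncomputable def defect (s : ℝ) (x xt xr : ℝ → ℝ → ℝ) (n : ℤ) : ℝ :=
  ((conj (fc (x s) n) * fc (xt s) n).re - (conj (fc (x (-s)) n) * fc (xt (-s)) n).re) -
    mu s * (‖fc (x s) n‖ ^ 2 + ‖fc (x (-s)) n‖ ^ 2) -
    2 * nu s * (‖fc (xr 0) n‖ ^ 2 - ‖fc (xt 0) n‖ ^ 2)

theorem Comp.defect_zero (h : Comp s x xt xtt xr xrr) (hs : 0 < s) :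
    defect s x xt xr 0 = -(2 * mu s * ‖fc (x 0) 0‖ ^ 2) := by
  have key := ode_zero (c := fun t => fc (x t) 0) (d := fun t => fc (xt t) 0)
    (e := fun t => fc (xtt t) 0) hs.le (h.deriv1 0) (h.deriv2 0)
    (fun t ht => by rw [h.fc_tt 0 t ht]; simp)
  obtain ⟨k1, k2⟩ := key s ⟨by linarith, le_rfl⟩
  obtain ⟨k3, k4⟩ := key (-s) ⟨le_rfl, by linarith⟩
  have k5 : fc (xr 0) 0 = 0 := by rw [h.fc_r]; simp
  unfold defect
  rw [k1, k2, k3, k4, k5]
  have hnu : nu s = mu s * s ^ 2 - s := rfl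
  rw [hnu]
  simp only [← Complex.normSq_eq_norm_sq, Complex.normSq_apply, Complex.mul_re, Complex.conj_re,
    Complex.conj_im, Complex.add_re, Complex.add_im, Complex.mul_im, Complex.ofReal_re,
    Complex.ofReal_im, Complex.zero_re, Complex.zero_im]
  ring

theorem Comp.defect_nonneg (h : Comp s x xt xtt xr xrr) (hs : 0 < s) {n : ℤ} (hn : n ≠ 0) :
    0 ≤ defect s x xt xr n := by
  have hm : 1 ≤ n.natAbs := Int.natAbs_pos.2 hn
  set m := n.natAbs with hmdef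
  have hmR : (0 : ℝ) < m := by exact_mod_cast hm
  have hsq : (n : ℂ) ^ 2 = ((m : ℝ) : ℂ) ^ 2 := by
    have : (n : ℤ) ^ 2 = (m : ℤ) ^ 2 := by rw [hmdef, Int.natAbs_sq]
    have h2 : ((n ^ 2 : ℤ) : ℂ) = (((m : ℤ) ^ 2 : ℤ) : ℂ) := by rw [this]
    push_cast at h2 ⊢
    exact h2
  have key := ode_sol (c := fun t => fc (x t) n) (d := fun t => fc (xt t) n)
    (e := fun t => fc (xtt t) n) (N := m) hs.le hmR (h.deriv1 n) (h.deriv2 n)
    (fun t ht => by rw [h.fc_tt n t ht, hsq])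
  obtain ⟨k1, k2⟩ := key s ⟨by linarith, le_rfl⟩
  obtain ⟨k3, k4⟩ := key (-s) ⟨le_rfl, by linarith⟩
  have k5 : ‖fc (xr 0) n‖ ^ 2 = (m : ℝ) ^ 2 * ‖fc (x 0) n‖ ^ 2 := by
    rw [h.fc_r, norm_mul, norm_mul, Complex.norm_I, one_mul, mul_pow]
    congr 1
    rw [← norm_pow, hsq, norm_pow]
    simp
  have k6 : ‖fc (xt 0) n‖ ^ 2 = (m : ℝ) ^ 2 * ‖fc (xt 0) n / (m : ℝ)‖ ^ 2 := by
    rw [norm_div, div_pow]
    simp only [Complex.norm_real, Real.norm_eq_abs, sq_abs]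
    field_simp
  rw [mul_neg, cosh_neg, sinh_neg] at k3 k4
  have hineq := mode_ineq hs hm (sq_nonneg ‖fc (x 0) n‖) (sq_nonneg ‖fc (xt 0) n / (m : ℝ)‖)
  unfold defect
  rw [k1, k2, k3, k4, k5, k6]
  set P := fc (x 0) n
  set Q := fc (xt 0) n / ((m : ℝ) : ℂ)
  have e1 : (conj (P * ((cosh (m * s) : ℝ) : ℂ) + Q * ((sinh (m * s) : ℝ) : ℂ)) *
      (((m : ℝ) : ℂ) * (P * ((sinh (m * s) : ℝ) : ℂ) + Q * ((cosh (m * s) : ℝ) : ℂ)))).re -
      (conj (P * ((cosh (m * s) : ℝ) : ℂ) + Q * ((-sinh (m * s) : ℝ) : ℂ)) *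
      (((m : ℝ) : ℂ) * (P * ((-sinh (m * s) : ℝ) : ℂ) + Q * ((cosh (m * s) : ℝ) : ℂ)))).re =
      2 * m * (‖P‖ ^ 2 + ‖Q‖ ^ 2) * sinh (m * s) * cosh (m * s) := by
    simp only [← Complex.normSq_eq_norm_sq, Complex.normSq_apply, Complex.mul_re,
      Complex.conj_re, Complex.conj_im, Complex.add_re, Complex.add_im, Complex.mul_im,
      Complex.ofReal_re, Complex.ofReal_im]
    ring
  have e2 : ‖P * ((cosh (m * s) : ℝ) : ℂ) + Q * ((sinh (m * s) : ℝ) : ℂ)‖ ^ 2 +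
      ‖P * ((cosh (m * s) : ℝ) : ℂ) + Q * ((-sinh (m * s) : ℝ) : ℂ)‖ ^ 2 =
      2 * (‖P‖ ^ 2 * cosh (m * s) ^ 2 + ‖Q‖ ^ 2 * sinh (m * s) ^ 2) := by
    simp only [← Complex.normSq_eq_norm_sq, Complex.normSq_apply, Complex.mul_re,
      Complex.add_re, Complex.add_im, Complex.mul_im, Complex.ofReal_re, Complex.ofReal_im]
    ring
  rw [e1, e2, ← mul_sub]
  linarith

/-- The basic inequality for one component. -/
theorem Comp.ineq (h : Comp s x xt xtt xr xrr) (hs : 0 < s) :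
    mu s * ((2 * π)⁻¹ * (∫ θ in (0 : ℝ)..(2 * π), x s θ ^ 2) +
        (2 * π)⁻¹ * ∫ θ in (0 : ℝ)..(2 * π), x (-s) θ ^ 2) +
      2 * nu s * ((2 * π)⁻¹ * (∫ θ in (0 : ℝ)..(2 * π), xr 0 θ ^ 2) -
        (2 * π)⁻¹ * ∫ θ in (0 : ℝ)..(2 * π), xt 0 θ ^ 2) - 2 * mu s * ‖fc (x 0) 0‖ ^ 2 ≤
      (2 * π)⁻¹ * (∫ θ in (0 : ℝ)..(2 * π), x s θ * xt s θ) -
        (2 * π)⁻¹ * ∫ θ in (0 : ℝ)..(2 * π), x (-s) θ * xt (-s) θ := by
  have h1 := hasSum_fc_mul (cont_slice h.cx s) (cont_slice h.cxt s)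
  have h2 := hasSum_fc_mul (cont_slice h.cx (-s)) (cont_slice h.cxt (-s))
  have h3 := hasSum_fc (cont_slice h.cx s)
  have h4 := hasSum_fc (cont_slice h.cx (-s))
  have h5 := hasSum_fc (cont_slice h.cxr 0)
  have h6 := hasSum_fc (cont_slice h.cxt 0)
  have hsum := ((h1.sub h2).sub ((h3.add h4).mul_left (mu s))).sub
    ((h5.sub h6).mul_left (2 * nu s))
  have hge := sum_le_hasSum {(0 : ℤ)} (f := defect s x xt xr) (fun n hn => by
    exact h.defect_nonneg hs (by simpa using hn)) hsum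
  rw [Finset.sum_singleton, h.defect_zero hs] at hge
  linarith

/-- The mean at the middle circle is the mean over the two boundary circles. -/
theorem Comp.mean (h : Comp s x xt xtt xr xrr) (hs : 0 < s) :
    fc (x 0) 0 = (fc (x s) 0 + fc (x (-s)) 0) / 2 := by
  have key := ode_zero (c := fun t => fc (x t) 0) (d := fun t => fc (xt t) 0)
    (e := fun t => fc (xtt t) 0) hs.le (h.deriv1 0) (h.deriv2 0)
    (fun t ht => by rw [h.fc_tt 0 t ht]; simp)
  obtain ⟨k1, k2⟩ := key s ⟨by linarith, le_rfl⟩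
  obtain ⟨k3, k4⟩ := key (-s) ⟨le_rfl, by linarith⟩
  rw [k1, k3]
  push_cast
  ring

theorem fc_zero (f : ℝ → ℝ) : fc f 0 = (((2 * π)⁻¹ * ∫ θ in (0 : ℝ)..(2 * π), f θ : ℝ) : ℂ) := by
  rw [fc_eq]
  have : ∀ θ : ℝ, fourier (-0) (θ : AddCircle (2 * π - 0)) • ((f θ : ℝ) : ℂ) =
      ((f θ : ℝ) : ℂ) := by
    intro θ; simp
  simp_rw [this]
  rw [intervalIntegral.integral_ofReal, sub_zero, one_div, Complex.real_smul]
  push_cast
  rfl

/-- Green's formula for one component. -/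
theorem Comp.green (h : Comp s x xt xtt xr xrr) (hs : 0 < s) :
    (∫ θ in (0 : ℝ)..(2 * π), x s θ * xt s θ) - (∫ θ in (0 : ℝ)..(2 * π), x (-s) θ * xt (-s) θ) =
      ∫ t in (-s)..s, ((∫ θ in (0 : ℝ)..(2 * π), xt t θ ^ 2) +
        ∫ θ in (0 : ℝ)..(2 * π), xr t θ ^ 2) := by
  have hd : ∀ t, HasDerivAt (fun t => ∫ θ in (0 : ℝ)..(2 * π), x t θ * xt t θ)
      (∫ θ in (0 : ℝ)..(2 * π), (xt t θ * xt t θ + x t θ * xtt t θ)) t := by
    intro t
    refine hasDerivAt_integral_cont (F := fun t θ => x t θ * xt t θ)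
      (F' := fun t θ => xt t θ * xt t θ + x t θ * xtt t θ) ?_ ?_ ?_ t
    · intro t
      exact (cont_slice h.cx t).mul (cont_slice h.cxt t)
    · exact (h.cxt.mul h.cxt).add (h.cx.mul h.cxtt)
    · intro t θ
      exact (h.dxt t θ).mul (h.dxtt t θ)
  have hcont : Continuous fun t => ∫ θ in (0 : ℝ)..(2 * π), (xt t θ * xt t θ + x t θ * xtt t θ) := by
    apply intervalIntegral.continuous_parametric_intervalIntegral_of_continuous'
    exact (h.cxt.mul h.cxt).add (h.cx.mul h.cxtt)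
  have hftc := intervalIntegral.integral_eq_sub_of_hasDerivAt (a := -s) (b := s)
    (fun t _ => hd t) (hcont.intervalIntegrable _ _)
  rw [← hftc]
  apply intervalIntegral.integral_congr
  intro t ht
  rw [uIcc_of_le (by linarith)] at ht
  simp only
  have hx := cont_slice h.cx t
  have hxt := cont_slice h.cxt t
  have hxr := cont_slice h.cxr t
  have hxrr := cont_slice h.cxrr t
  have hxtt := cont_slice h.cxtt t
  have hparts := intervalIntegral.integral_mul_deriv_eq_deriv_mul (a := 0) (b := 2 * π)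
    (u := fun θ => x t θ) (v := fun θ => xr t θ) (u' := fun θ => xr t θ) (v' := fun θ => xrr t θ)
    (fun θ _ => h.dxr t θ) (fun θ _ => h.dxrr t θ)
    (hxr.intervalIntegrable _ _) (hxrr.intervalIntegrable _ _)
  rw [h.per t, h.perr t, sub_self, zero_sub] at hparts
  have hadd : (∫ θ in (0 : ℝ)..(2 * π), (xt t θ * xt t θ + x t θ * xtt t θ)) =
      (∫ θ in (0 : ℝ)..(2 * π), xt t θ * xt t θ) + ∫ θ in (0 : ℝ)..(2 * π), x t θ * xtt t θ :=
    intervalIntegral.integral_add ((hxt.mul hxt).intervalIntegrable _ _)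
      ((hx.mul hxtt).intervalIntegrable _ _)
  rw [hadd]
  have e1 : (∫ θ in (0 : ℝ)..(2 * π), xt t θ * xt t θ) = ∫ θ in (0 : ℝ)..(2 * π), xt t θ ^ 2 := by
    apply intervalIntegral.integral_congr
    intro θ _
    simp only; ring
  have e2 : (∫ θ in (0 : ℝ)..(2 * π), x t θ * xtt t θ) = ∫ θ in (0 : ℝ)..(2 * π), xr t θ ^ 2 := by
    have : ∀ θ, x t θ * xtt t θ = -(x t θ * xrr t θ) := by
      intro θ
      have := h.harm t ht θ
      have h2 : xtt t θ = -xrr t θ := by linarith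
      rw [h2]; ring
    simp_rw [this]
    rw [intervalIntegral.integral_neg, hparts, neg_neg]
    apply intervalIntegral.integral_congr
    intro θ _
    simp only; ring
  rw [e1, e2]

end Pool.MP9f6534
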