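import Mathlib

/-!
# Free boundary minimal annuli in the unit ball: definitions
-/

open Real

namespace Pool.MP9f6534

/-- Euclidean three space. -/
abbrev E3 := EuclideanSpace ℝ (Fin 3)

/-- Partial derivative in the first variable `t` (the length coordinate of the cylinder). -/
noncomputable def dt (X : ℝ → ℝ → E3) (t θ : ℝ) : E3 := deriv (fun τ => X τ θ) t

/-- Partial derivative in the second variable `θ` (the angular coordinate of the cylinder). -/
noncomputable def dθ (X : ℝ → ℝ → E3) (t θ : ℝ) : E3 := deriv (fun η => X t η) θ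

/-- `X` is a conformal parametrisation, by the cylinder `[-s, s] × (ℝ / 2πℤ)`, of an immersed free
boundary minimal annulus in the closed unit ball: on the cylinder `X` is an immersion, conformal
and harmonic (so its image has zero mean curvature), it maps the interior of the cylinder into the
open ball and the two boundary circles into the unit sphere, and the outward unit conormal
`± ∂ₜX / |∂ₜX|` at a boundary point is the position vector, i.e. the surface meets the sphere
orthogonally. (`X` is a `C²` map on the whole plane, but the conditions other than smoothness and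
periodicity are only imposed for `|t| ≤ s`.) -/
structure IsFreeBoundaryMinimalAnnulus (s : ℝ) (X : ℝ → ℝ → E3) : Prop where
  pos : 0 < s
  smooth : ContDiff ℝ 2 (fun p : ℝ × ℝ => X p.1 p.2)
  periodic : ∀ t θ, X t (θ + 2 * π) = X t θ
  interior : ∀ t θ, |t| < s → ‖X t θ‖ < 1
  boundary : ∀ θ, ‖X s θ‖ = 1 ∧ ‖X (-s) θ‖ = 1
  immersed : ∀ t θ, |t| ≤ s → dt X t θ ≠ 0
  conformal : ∀ t θ, |t| ≤ s → ‖dt X t θ‖ = ‖dθ X t θ‖ ∧ inner ℝ (dt X t θ) (dθ X t θ) = 0
  harmonic : ∀ t θ, |t| ≤ s → dt (dt X) t θ + dθ (dθ X) t θ = 0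
  orthogonal : ∀ θ, dt X s θ = ‖dt X s θ‖ • X s θ ∧ dt X (-s) θ = -(‖dt X (-s) θ‖ • X (-s) θ)

/-- The annulus is embedded. -/
def IsEmbedded (s : ℝ) (X : ℝ → ℝ → E3) : Prop :=
  ∀ t θ t' θ', |t| ≤ s → |t'| ≤ s → X t θ = X t' θ' → t = t' ∧ ∃ m : ℤ, θ' = θ + m * (2 * π)

/-- The area of the annulus. -/
noncomputable def area (s : ℝ) (X : ℝ → ℝ → E3) : ℝ :=
  ∫ t in (-s)..s, ∫ θ in (0 : ℝ)..(2 * π), ‖dt X t θ‖ * ‖dθ X t θ‖

/-- The mean of `X` over the two boundary circles, with respect to the conformal angle `θ`. -/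
noncomputable def centre (s : ℝ) (X : ℝ → ℝ → E3) : E3 :=
  (4 * π)⁻¹ • ((∫ θ in (0 : ℝ)..(2 * π), X s θ) + ∫ θ in (0 : ℝ)..(2 * π), X (-s) θ)

/-- The length of the curve `θ ↦ X(t, θ)`; for `t = s` and `t = -s` these are the two boundary
circles. -/
noncomputable def circleLength (t : ℝ) (X : ℝ → ℝ → E3) : ℝ :=
  ∫ θ in (0 : ℝ)..(2 * π), ‖dθ X t θ‖

/-- The critical catenoid, for the half length `k` with `k tanh k = 1`. -/
noncomputable def catenoid (k : ℝ) (t θ : ℝ) : E3 :=
  (k * cosh k)⁻¹ • !₂[cosh t * cos θ, cosh t * sin θ, t]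

end Pool.MP9f6534
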