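import Pool.Agent.Lib.MP_9f6534_gt.Scalar

open Real MeasureTheory Set Filter Topology
open scoped ComplexConjugate

namespace Pool.MP9f6534

theorem two_pi_pos' : (0 : ℝ) < 2 * π := by positivity

/-- Fourier coefficient on `[0, 2π]`. -/
noncomputable def fc (f : ℝ → ℝ) (n : ℤ) : ℂ :=
  fourierCoeffOn two_pi_pos' (fun θ => ((f θ : ℝ) : ℂ)) n

/-- Differentiation under an interval integral, jointly continuous derivative. -/
theorem hasDerivAt_integral_cont {E : Type*} [NormedAddCommGroup E] [NormedSpace ℝ E]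
    [CompleteSpace E] {a b : ℝ} {F F' : ℝ → ℝ → E}
    (hF : ∀ t, Continuous (F t)) (hF' : Continuous (Function.uncurry F'))
    (hd : ∀ t θ, HasDerivAt (fun τ => F τ θ) (F' t θ) t) (t₀ : ℝ) :
    HasDerivAt (fun t => ∫ θ in a..b, F t θ) (∫ θ in a..b, F' t₀ θ) t₀ := by
  have hK : IsCompact (Icc (t₀ - 1) (t₀ + 1) ×ˢ uIcc a b) := isCompact_Icc.prod isCompact_uIcc
  obtain ⟨C, hC⟩ := hK.exists_bound_of_continuousOn hF'.continuousOn
  refine (intervalIntegral.hasDerivAt_integral_of_dominated_loc_of_deriv_le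
    (F := F) (F' := F') (bound := fun _ => C) (s := Icc (t₀ - 1) (t₀ + 1)) ?_ ?_ ?_ ?_ ?_ ?_ ?_).2
  · exact Icc_mem_nhds (by linarith) (by linarith)
  · exact Eventually.of_forall (fun t => (hF t).aestronglyMeasurable)
  · exact (hF t₀).intervalIntegrable _ _
  · exact (hF'.comp (by fun_prop : Continuous fun θ : ℝ => (t₀, θ))).aestronglyMeasurable
  · refine Eventually.of_forall (fun θ hθ t ht => ?_)
    exact hC (t, θ) ⟨ht, uIoc_subset_uIcc hθ⟩
  · exact intervalIntegrable_const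
  · exact Eventually.of_forall (fun θ _ t _ => hd t θ)

theorem fc_eq (f : ℝ → ℝ) (n : ℤ) : fc f n =
    (1 / (2 * π - 0) : ℝ) • ∫ θ in (0 : ℝ)..(2 * π),
      fourier (-n) (θ : AddCircle (2 * π - 0)) • ((f θ : ℝ) : ℂ) :=
  fourierCoeffOn_eq_integral _ _ _

theorem fc_add {f g : ℝ → ℝ} (hf : Continuous f) (hg : Continuous g) (n : ℤ) :
    fc (fun θ => f θ + g θ) n = fc f n + fc g n := by
  have hc : Continuous fun θ : ℝ => fourier (-n) (θ : AddCircle (2 * π - 0)) :=
    (map_continuous _).comp (AddCircle.continuous_mk' _)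
  rw [fc_eq, fc_eq, fc_eq, ← smul_add, ← intervalIntegral.integral_add]
  · congr 2
    ext θ
    push_cast
    rw [smul_add]
  · exact (hc.smul (Complex.continuous_ofReal.comp hf)).intervalIntegrable _ _
  · exact (hc.smul (Complex.continuous_ofReal.comp hg)).intervalIntegrable _ _

theorem fc_neg (f : ℝ → ℝ) (n : ℤ) : fc (fun θ => -f θ) n = -fc f n := by
  rw [fc_eq, fc_eq, ← smul_neg, ← intervalIntegral.integral_neg]
  congr 2
  ext θ
  push_cast
  rw [smul_neg]

theorem hasDerivAt_fc {x x' : ℝ → ℝ → ℝ} (hx : ∀ t, Continuous (x t))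
    (hx' : Continuous (Function.uncurry x'))
    (hd : ∀ t θ, HasDerivAt (fun τ => x τ θ) (x' t θ) t) (n : ℤ) (t : ℝ) :
    HasDerivAt (fun t => fc (x t) n) (fc (x' t) n) t := by
  have hc : Continuous fun θ : ℝ => fourier (-n) (θ : AddCircle (2 * π - 0)) :=
    (map_continuous _).comp (AddCircle.continuous_mk' _)
  simp_rw [fc_eq]
  refine HasDerivAt.const_smul (1 / (2 * π - 0) : ℝ) ?_
  refine hasDerivAt_integral_cont
    (F := fun t θ => fourier (-n) (θ : AddCircle (2 * π - 0)) • ((x t θ : ℝ) : ℂ))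
    (F' := fun t θ => fourier (-n) (θ : AddCircle (2 * π - 0)) • ((x' t θ : ℝ) : ℂ)) ?_ ?_ ?_ t
  · intro t
    exact hc.smul (Complex.continuous_ofReal.comp (hx t))
  · exact (hc.comp continuous_snd).smul (Complex.continuous_ofReal.comp hx')
  · intro t θ
    exact HasDerivAt.const_smul (fourier (-n) (θ : AddCircle (2 * π - 0)) : ℂ)
      (hd t θ).ofReal_comp

theorem hasSum_fc {f : ℝ → ℝ} (hf : Continuous f) :
    HasSum (fun n : ℤ => ‖fc f n‖ ^ 2) ((2 * π)⁻¹ * ∫ θ in (0 : ℝ)..(2 * π), f θ ^ 2) := by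
  have hL2 : MemLp (fun θ => ((f θ : ℝ) : ℂ)) 2 (volume.restrict (Ioc 0 (2 * π))) := by
    have h1 : Continuous fun θ => ((f θ : ℝ) : ℂ) := Complex.continuous_ofReal.comp hf
    obtain ⟨C, hC⟩ := (isCompact_Icc (a := (0 : ℝ)) (b := 2 * π)).exists_bound_of_continuousOn
      h1.continuousOn
    refine MemLp.of_bound h1.aestronglyMeasurable C ?_
    rw [ae_restrict_iff' measurableSet_Ioc]
    exact Eventually.of_forall (fun θ hθ => hC θ (Ioc_subset_Icc_self hθ))
  have h := hasSum_sq_fourierCoeffOn two_pi_pos' hL2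
  have e : (2 * π - 0)⁻¹ • ∫ θ in (0 : ℝ)..(2 * π), ‖((f θ : ℝ) : ℂ)‖ ^ 2 =
      (2 * π)⁻¹ * ∫ θ in (0 : ℝ)..(2 * π), f θ ^ 2 := by
    rw [smul_eq_mul, sub_zero]
    congr 2
    ext θ
    simp
  rw [e] at h
  exact h

/-- Parseval for the inner product of two real functions. -/
theorem hasSum_fc_mul {f g : ℝ → ℝ} (hf : Continuous f) (hg : Continuous g) :
    HasSum (fun n : ℤ => (conj (fc f n) * fc g n).re)
      ((2 * π)⁻¹ * ∫ θ in (0 : ℝ)..(2 * π), f θ * g θ) := by
  have h1 := hasSum_fc (hf.add hg)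
  have h2 := hasSum_fc (hf.add hg.neg)
  have h3 := (h1.sub h2).mul_left (1 / 4)
  have e1 : (fun n : ℤ => 1 / 4 * (‖fc (f + g) n‖ ^ 2 - ‖fc (f + -g) n‖ ^ 2)) =
      fun n : ℤ => (conj (fc f n) * fc g n).re := by
    funext n
    have e1 : fc (f + g) n = fc f n + fc g n := fc_add hf hg n
    have e2 : fc (f + -g) n = fc f n + -fc g n := by
      rw [← fc_neg]; exact fc_add hf hg.neg n
    rw [e1, e2, ← Complex.normSq_eq_norm_sq, ← Complex.normSq_eq_norm_sq]
    simp only [Complex.normSq_apply, Complex.mul_re, Complex.conj_re, Complex.conj_im,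
      Complex.add_re, Complex.add_im, Complex.neg_re, Complex.neg_im]
    ring
  have e2 : 1 / 4 * ((2 * π)⁻¹ * (∫ θ in (0 : ℝ)..(2 * π), (f + g) θ ^ 2) -
      (2 * π)⁻¹ * ∫ θ in (0 : ℝ)..(2 * π), (f + -g) θ ^ 2) =
      (2 * π)⁻¹ * ∫ θ in (0 : ℝ)..(2 * π), f θ * g θ := by
    rw [← mul_sub, ← intervalIntegral.integral_sub]
    · rw [← mul_assoc, mul_comm (1 / 4 : ℝ), mul_assoc, ← intervalIntegral.integral_const_mul]
      congr 2
      ext θ
      simp only [Pi.add_apply, Pi.neg_apply]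
      ring
    · exact ((hf.add hg).pow 2).intervalIntegrable _ _
    · exact ((hf.add hg.neg).pow 2).intervalIntegrable _ _
  rw [← e1, ← e2]
  exact h3

/-- Fourier coefficients of the derivative of a periodic function. -/
theorem fc_deriv {f f' : ℝ → ℝ} (hf : ∀ θ, HasDerivAt f (f' θ) θ) (hf' : Continuous f')
    (hper : f (2 * π) = f 0) (n : ℤ) : fc f' n = Complex.I * n * fc f n := by
  have hfC : ∀ θ, HasDerivAt (fun θ => ((f θ : ℝ) : ℂ)) ((f' θ : ℝ) : ℂ) θ :=
    fun θ => (hf θ).ofReal_comp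
  have hint : IntervalIntegrable (fun θ => ((f' θ : ℝ) : ℂ)) volume 0 (2 * π) :=
    (Complex.continuous_ofReal.comp hf').intervalIntegrable _ _
  rcases eq_or_ne n 0 with rfl | hn
  · rw [fc_eq]
    have : ∀ θ : ℝ, fourier (-0) (θ : AddCircle (2 * π - 0)) • ((f' θ : ℝ) : ℂ) =
        ((f' θ : ℝ) : ℂ) := by
      intro θ; simp
    simp_rw [this]
    rw [intervalIntegral.integral_eq_sub_of_hasDerivAt (fun θ _ => hfC θ) hint, hper]
    simp
  · have h := fourierCoeffOn_of_hasDerivAt two_pi_pos' hn (fun θ _ => hfC θ) hint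
    rw [hper, sub_self, mul_zero, zero_sub] at h
    unfold fc
    rw [h]
    have hpi : (π : ℂ) ≠ 0 := by exact_mod_cast pi_ne_zero
    have hn' : (n : ℂ) ≠ 0 := by exact_mod_cast hn
    push_cast
    field_simp
    ring_nf

end Pool.MP9f6534
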