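import Pool.Agent.Lib.MP_9f6534_gt.Modes

open Real MeasureTheory Set Filter Topology
open scoped ComplexConjugate

namespace Pool.MP9f6534

theorem const_on {f : ℝ → ℂ} {f' : ℝ → ℂ} {s : ℝ} (hs : 0 ≤ s)
    (hf : ∀ t, HasDerivAt f (f' t) t) (h0 : ∀ t ∈ Icc (-s) s, f' t = 0) :
    ∀ t ∈ Icc (-s) s, f t = f 0 := by
  have h1 : ∀ x ∈ Icc (-s) s, f x = f (-s) := by
    apply constant_of_has_deriv_right_zero
    · exact fun t _ => (hf t).continuousAt.continuousWithinAt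
    · intro x hx
      have := (hf x).hasDerivWithinAt (s := Ici x)
      rwa [h0 x (Ico_subset_Icc_self hx)] at this
  intro t ht
  rw [h1 t ht, h1 0 ⟨by linarith, hs⟩]

theorem ode_sol {c d e : ℝ → ℂ} {s N : ℝ} (hs : 0 ≤ s) (hN : 0 < N)
    (hc : ∀ t, HasDerivAt c (d t) t) (hd : ∀ t, HasDerivAt d (e t) t)
    (he : ∀ t ∈ Icc (-s) s, e t = (N : ℂ) ^ 2 * c t) (t : ℝ) (ht : t ∈ Icc (-s) s) :
    c t = c 0 * (cosh (N * t) : ℝ) + d 0 / N * (sinh (N * t) : ℝ) ∧
    d t = N * (c 0 * (sinh (N * t) : ℝ) + d 0 / N * (cosh (N * t) : ℝ)) := by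
  have hNC : (N : ℂ) ≠ 0 := by exact_mod_cast hN.ne'
  have hE : ∀ (a t : ℝ), HasDerivAt (fun t : ℝ => ((exp (a * t) : ℝ) : ℂ))
      ((a * exp (a * t) : ℝ) : ℂ) t := by
    intro a t
    have h : HasDerivAt (fun t : ℝ => exp (a * t)) (a * exp (a * t)) t := by
      have h1 : HasDerivAt (fun t : ℝ => a * t) a t := by
        simpa using (hasDerivAt_id t).const_mul a
      have := h1.exp
      rwa [mul_comm] at this
    exact h.ofReal_comp
  have g1 := const_on (f := fun t => (d t - N * c t) * ((exp (N * t) : ℝ) : ℂ))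
    (f' := fun t => (e t - N * d t) * ((exp (N * t) : ℝ) : ℂ) +
      (d t - N * c t) * ((N * exp (N * t) : ℝ) : ℂ)) hs
    (fun t => ((hd t).sub ((hc t).const_mul (N : ℂ))).mul (hE N t)) (by
      intro t ht
      rw [he t ht]; push_cast; ring) t ht
  have g2 := const_on (f := fun t => (d t + N * c t) * ((exp (-N * t) : ℝ) : ℂ))
    (f' := fun t => (e t + N * d t) * ((exp (-N * t) : ℝ) : ℂ) +
      (d t + N * c t) * ((-N * exp (-N * t) : ℝ) : ℂ)) hs
    (fun t => ((hd t).add ((hc t).const_mul (N : ℂ))).mul (hE (-N) t)) (by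
      intro t ht
      rw [he t ht]; push_cast; ring) t ht
  simp only [mul_zero, exp_zero, Complex.ofReal_one, mul_one] at g1 g2
  have hee : ((exp (N * t) : ℝ) : ℂ) * ((exp (-N * t) : ℝ) : ℂ) = 1 := by
    rw [← Complex.ofReal_mul, ← exp_add]; simp
  have k1 : d t - N * c t = (d 0 - N * c 0) * ((exp (-N * t) : ℝ) : ℂ) := by
    rw [← g1, mul_assoc, hee, mul_one]
  have k2 : d t + N * c t = (d 0 + N * c 0) * ((exp (N * t) : ℝ) : ℂ) := by
    rw [← g2, mul_assoc, mul_comm (((exp (-N * t) : ℝ) : ℂ)), hee, mul_one]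
  have hch : ((cosh (N * t) : ℝ) : ℂ) =
      (((exp (N * t) : ℝ) : ℂ) + ((exp (-N * t) : ℝ) : ℂ)) / 2 := by
    rw [cosh_eq]; push_cast; ring_nf
  have hsh : ((sinh (N * t) : ℝ) : ℂ) =
      (((exp (N * t) : ℝ) : ℂ) - ((exp (-N * t) : ℝ) : ℂ)) / 2 := by
    rw [sinh_eq]; push_cast; ring_nf
  rw [hch, hsh]
  constructor
  · have : c t = ((d t + N * c t) - (d t - N * c t)) / (2 * N) := by field_simp; ring
    rw [this, k1, k2]
    field_simp
    ring
  · have : d t = ((d t + N * c t) + (d t - N * c t)) / 2 := by ring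
    rw [this, k1, k2]
    field_simp
    ring

theorem ode_zero {c d e : ℝ → ℂ} {s : ℝ} (hs : 0 ≤ s)
    (hc : ∀ t, HasDerivAt c (d t) t) (hd : ∀ t, HasDerivAt d (e t) t)
    (he : ∀ t ∈ Icc (-s) s, e t = 0) (t : ℝ) (ht : t ∈ Icc (-s) s) :
    c t = c 0 + d 0 * t ∧ d t = d 0 := by
  have g1 := const_on (f := d) (f' := e) hs hd he
  have g2 := const_on (f := fun t => c t - d 0 * t) (f' := fun t => d t - d 0) hs
    (fun t => by
      have h1 : HasDerivAt (fun t : ℝ => d 0 * (t : ℂ)) (d 0) t := by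
        simpa using (Complex.ofRealCLM.hasDerivAt (x := t)).const_mul (d 0)
      exact (hc t).sub h1)
    (fun t ht => by simp [g1 t ht]) t ht
  refine ⟨?_, g1 t ht⟩
  simp only [Complex.ofReal_zero, mul_zero, sub_zero] at g2
  rw [← g2]; ring

end Pool.MP9f6534
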