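import Mathlib

open Real

namespace Pool.MP9f6534

/-- `cosh² s + s²`. -/
noncomputable def dd (s : ℝ) : ℝ := cosh s ^ 2 + s ^ 2

/-- the first multiplier, half of the area function. -/
noncomputable def mu (s : ℝ) : ℝ := (sinh s * cosh s + s) / dd s

/-- the second multiplier. -/
noncomputable def nu (s : ℝ) : ℝ := mu s * s ^ 2 - s

/-- The area function: `π * phi s` is the area of the piece `|t| ≤ s` of the catenoid, scaled so
that its boundary lies on the unit sphere. -/
noncomputable def phi (s : ℝ) : ℝ := (sinh (2 * s) + 2 * s) / (cosh s ^ 2 + s ^ 2)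

theorem phi_eq (s : ℝ) : phi s = 2 * mu s := by
  unfold phi mu dd
  rw [sinh_two_mul]; ring

theorem dd_pos (s : ℝ) : 0 < dd s := by
  unfold dd
  have := cosh_pos s
  positivity

theorem one_le_dd (s : ℝ) : 1 ≤ dd s := by
  unfold dd
  nlinarith [one_le_cosh s, sq_nonneg s]

theorem nu_eq (s : ℝ) : nu s = s * cosh s * (s * sinh s - cosh s) / dd s := by
  unfold nu mu
  have h := dd_pos s
  rw [eq_div_iff h.ne', sub_mul, mul_assoc, mul_comm (s ^ 2), ← mul_assoc,
    div_mul_cancel₀ _ h.ne']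
  unfold dd
  ring

theorem mu_eq (s : ℝ) : mu s = tanh s - nu s / cosh s ^ 2 := by
  rw [nu_eq, tanh_eq_sinh_div_cosh]
  unfold mu
  have h := dd_pos s
  have hc := cosh_pos s
  field_simp
  unfold dd
  ring

theorem mu_pos {s : ℝ} (hs : 0 < s) : 0 < mu s := by
  unfold mu
  have := dd_pos s
  have := sinh_pos_iff.2 hs
  have := cosh_pos s
  positivity

theorem mu_le_one (s : ℝ) : mu s ≤ 1 := by
  unfold mu
  rw [div_le_one (dd_pos s)]
  unfold dd
  have h1 : cosh s - sinh s = exp (-s) := cosh_sub_sinh s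
  have hc : cosh s = (exp s + exp (-s)) / 2 := cosh_eq s
  have h2 : cosh s * exp (-s) ≥ 1 / 2 := by
    rw [hc]
    have : exp s * exp (-s) = 1 := by rw [← exp_add]; simp
    nlinarith [sq_nonneg (exp (-s))]
  have h3 : cosh s ^ 2 - sinh s * cosh s = cosh s * exp (-s) := by rw [← h1]; ring
  nlinarith [sq_nonneg (s - 1 / 2)]

/-- `s cosh s ≤ sinh s + s² sinh s / 2` for `s ≥ 0`. -/
theorem aux_cosh {y : ℝ} (hy : 0 ≤ y) : y * cosh y ≤ sinh y + y ^ 2 / 2 * sinh y := by
  have hmono : MonotoneOn (fun y => sinh y + y ^ 2 / 2 * sinh y - y * cosh y) (Set.Ici 0) := by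
    apply monotoneOn_of_deriv_nonneg (convex_Ici 0)
    · fun_prop
    · fun_prop
    · intro x hx
      have h1 : HasDerivAt (fun y => sinh y + y ^ 2 / 2 * sinh y - y * cosh y)
          (x ^ 2 / 2 * cosh x) x := by
        have a1 := Real.hasDerivAt_sinh x
        have a2 := Real.hasDerivAt_cosh x
        have a3 : HasDerivAt (fun y : ℝ => y ^ 2 / 2) x x := by
          have := (hasDerivAt_pow 2 x).div_const 2
          simpa using this
        have := (a1.add (a3.mul a1)).sub ((hasDerivAt_id x).mul a2)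
        refine this.congr_deriv ?_
        simp only [id]
        ring
      rw [h1.deriv]
      have := cosh_pos x
      positivity
  have := hmono (Set.mem_Ici.2 le_rfl) (Set.mem_Ici.2 hy) hy
  simp at this
  linarith

theorem le_sinh_cosh {s : ℝ} (hs : 0 ≤ s) : s ≤ sinh s * cosh s := by
  have h1 : s ≤ sinh s := self_le_sinh_iff.2 hs
  have h2 := one_le_cosh s
  have h3 : 0 ≤ sinh s := sinh_nonneg_iff.2 hs
  nlinarith

theorem mu_le_two_tanh {s : ℝ} (hs : 0 ≤ s) : mu s ≤ 2 * tanh s := by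
  unfold mu
  rw [div_le_iff₀ (dd_pos s), tanh_eq_sinh_div_cosh]
  have hc := cosh_pos s
  have h3 : 0 ≤ sinh s := sinh_nonneg_iff.2 hs
  have h : 2 * (sinh s / cosh s) * dd s = 2 * sinh s * cosh s + 2 * (sinh s / cosh s) * s ^ 2 := by
    unfold dd
    field_simp
  rw [h]
  have := le_sinh_cosh hs
  have : 0 ≤ 2 * (sinh s / cosh s) * s ^ 2 := by positivity
  linarith

theorem tanh_mono' {a b : ℝ} (h : a ≤ b) : tanh a ≤ tanh b := by
  rw [tanh_eq_sinh_div_cosh, tanh_eq_sinh_div_cosh, div_le_div_iff₀ (cosh_pos a) (cosh_pos b)]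
  have h1 : 0 ≤ sinh (b - a) := sinh_nonneg_iff.2 (by linarith)
  rw [sinh_sub] at h1
  linarith

/-- `tanh s + tanh s` beats `mu s` in the sense needed for the even modes. -/
theorem mu_le_two_tanh_two {s : ℝ} (hs : 0 ≤ s) : mu s ≤ 2 * tanh (2 * s) := by
  refine (mu_le_two_tanh hs).trans ?_
  have : tanh s ≤ tanh (2 * s) := tanh_mono' (by linarith)
  linarith

/-- Even modes, `n ≥ 2`, short cylinders. -/
theorem even_short {s : ℝ} (hs : 0 < s) (hnu : nu s ≤ 0) {N : ℝ} (hN : 2 ≤ N) :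
    mu s * cosh (N * s) ^ 2 + nu s * N ^ 2 ≤ N * sinh (N * s) * cosh (N * s) := by
  have hc := cosh_pos (N * s)
  have h1 : tanh (2 * s) ≤ tanh (N * s) := tanh_mono' (by nlinarith)
  have h2 : mu s ≤ N * tanh (N * s) := by
    have h3 := mu_le_two_tanh_two hs.le
    have h4 : 0 ≤ tanh (2 * s) := by
      rw [tanh_eq_sinh_div_cosh]
      exact div_nonneg (sinh_nonneg_iff.2 (by linarith)) (cosh_pos _).le
    nlinarith
  have h5 : N * sinh (N * s) * cosh (N * s) = N * tanh (N * s) * cosh (N * s) ^ 2 := by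
    rw [tanh_eq_sinh_div_cosh]; field_simp
  rw [h5]
  have h6 : mu s * cosh (N * s) ^ 2 ≤ N * tanh (N * s) * cosh (N * s) ^ 2 :=
    mul_le_mul_of_nonneg_right h2 (sq_nonneg _)
  have h7 : nu s * N ^ 2 ≤ 0 := mul_nonpos_of_nonpos_of_nonneg hnu (sq_nonneg _)
  linarith

/-- Even modes, `n = 1`: equality. -/
theorem even_one (s : ℝ) : mu s * cosh s ^ 2 + nu s = sinh s * cosh s := by
  rw [mu_eq, tanh_eq_sinh_div_cosh]
  have hc := cosh_pos s
  field_simp
  ring

theorem nu_nonneg_iff {s : ℝ} (hs : 0 < s) : 0 ≤ nu s ↔ cosh s ≤ s * sinh s := by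
  rw [nu_eq]
  have hc := cosh_pos s
  have hd := dd_pos s
  constructor
  · intro h
    by_contra hcon
    push Not at hcon
    have : s * cosh s * (s * sinh s - cosh s) / dd s < 0 :=
      div_neg_of_neg_of_pos (mul_neg_of_pos_of_neg (by positivity) (by linarith)) hd
    linarith
  · intro h
    exact div_nonneg (mul_nonneg (by positivity) (by linarith)) hd.le

theorem cosh_ge_of_long {s : ℝ} (hs : 0 < s) (h : cosh s ≤ s * sinh s) : 3 / 2 ≤ cosh s := by
  have hlt : sinh s < cosh s := sinh_lt_cosh s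
  have hsh : 0 < sinh s := sinh_pos_iff.2 hs
  have h1 : 1 < s := by
    by_contra hcon
    push Not at hcon
    nlinarith
  have h2 : cosh 1 ≤ cosh s := by
    rw [cosh_le_cosh]
    rw [abs_of_pos one_pos, abs_of_pos hs]; exact h1.le
  have h3 : 3 / 2 ≤ cosh 1 := by
    rw [cosh_eq]
    have h4 := exp_one_gt_d9
    have h5 := exp_neg_one_gt_d9
    linarith
  linarith

/-- `n cosh s ≤ cosh (n s)` for `n ≥ 2` on long cylinders. -/
theorem nat_mul_cosh_le {s : ℝ} (hs : 0 < s) (h : 3 / 2 ≤ cosh s) (n : ℕ) (hn : 2 ≤ n) :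
    (n : ℝ) * cosh s ≤ cosh (n * s) := by
  induction n, hn using Nat.le_induction with
  | base =>
    push_cast
    rw [cosh_two_mul, sinh_sq]
    nlinarith
  | succ n hn ih =>
    have e : ((n + 1 : ℕ) : ℝ) * s = n * s + s := by push_cast; ring
    rw [e, cosh_add]
    have hn' : (2 : ℝ) ≤ n := by exact_mod_cast hn
    have h1 : 0 ≤ sinh (n * s) * sinh s :=
      mul_nonneg (sinh_nonneg_iff.2 (by positivity)) (sinh_nonneg_iff.2 hs.le)
    have h2 : (n : ℝ) * cosh s * cosh s ≤ cosh (n * s) * cosh s :=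
      mul_le_mul_of_nonneg_right ih (cosh_pos s).le
    have h3 : (n : ℝ) + 1 ≤ n * cosh s := by nlinarith
    have h4 : ((n : ℝ) + 1) * cosh s ≤ n * cosh s * cosh s :=
      mul_le_mul_of_nonneg_right h3 (cosh_pos s).le
    push_cast
    linarith

/-- Even modes on long cylinders. -/
theorem even_long {s : ℝ} (hs : 0 < s) (hnu : 0 ≤ nu s) {n : ℕ} (hn : 2 ≤ n) :
    mu s * cosh (n * s) ^ 2 + nu s * (n : ℝ) ^ 2 ≤ n * sinh (n * s) * cosh (n * s) := by
  have hn' : (2 : ℝ) ≤ n := by exact_mod_cast hn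
  have hc := cosh_pos s
  have hcn := cosh_pos (n * s)
  have h0 := nat_mul_cosh_le hs (cosh_ge_of_long hs ((nu_nonneg_iff hs).1 hnu)) n hn
  have h1 : tanh s ≤ tanh (n * s) := tanh_mono' (by nlinarith)
  have ht : 0 ≤ tanh s := by
    rw [tanh_eq_sinh_div_cosh]
    exact div_nonneg (sinh_nonneg_iff.2 hs.le) hc.le
  have h2 : tanh s ≤ n * tanh (n * s) := by nlinarith
  have h5 : n * sinh (n * s) * cosh (n * s) = n * tanh (n * s) * cosh (n * s) ^ 2 := by
    rw [tanh_eq_sinh_div_cosh]; field_simp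
  rw [h5, mu_eq]
  have h3 : (n : ℝ) ^ 2 ≤ cosh (n * s) ^ 2 / cosh s ^ 2 := by
    rw [le_div_iff₀ (by positivity), ← mul_pow]
    exact pow_le_pow_left₀ (by positivity) h0 2
  have h4 : nu s * (n : ℝ) ^ 2 ≤ nu s * (cosh (n * s) ^ 2 / cosh s ^ 2) :=
    mul_le_mul_of_nonneg_left h3 hnu
  have h6 : (tanh s - nu s / cosh s ^ 2) * cosh (n * s) ^ 2 +
      nu s * (cosh (n * s) ^ 2 / cosh s ^ 2) = tanh s * cosh (n * s) ^ 2 := by ring
  have h7 : tanh s * cosh (n * s) ^ 2 ≤ n * tanh (n * s) * cosh (n * s) ^ 2 :=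
    mul_le_mul_of_nonneg_right h2 (sq_nonneg _)
  linarith

/-- All even modes. -/
theorem even_mode {s : ℝ} (hs : 0 < s) {n : ℕ} (hn : 1 ≤ n) :
    mu s * cosh (n * s) ^ 2 + nu s * (n : ℝ) ^ 2 ≤ n * sinh (n * s) * cosh (n * s) := by
  rcases Nat.lt_or_ge n 2 with h | h
  · obtain rfl : n = 1 := by omega
    have := even_one s
    simp only [Nat.cast_one, one_mul, one_pow, mul_one]
    linarith
  · rcases le_total (nu s) 0 with h0 | h0
    · exact even_short hs h0 (by exact_mod_cast h)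
    · exact even_long hs h0 h

/-- Odd modes, first mode, short cylinder. -/
theorem odd_one {s : ℝ} (hs : 0 ≤ s) : mu s * sinh s ^ 2 - nu s ≤ sinh s * cosh s := by
  have hd := dd_pos s
  rw [nu_eq]
  unfold mu
  rw [div_mul_eq_mul_div, ← sub_div, div_le_iff₀ hd]
  unfold dd
  have h := aux_cosh (y := 2 * s) (by linarith)
  rw [sinh_two_mul, cosh_two_mul] at h
  have e : sinh s * cosh s * (cosh s ^ 2 + s ^ 2) -
      ((sinh s * cosh s + s) * sinh s ^ 2 - s * cosh s * (s * sinh s - cosh s)) =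
      sinh s * cosh s * (cosh s ^ 2 - sinh s ^ 2) + 2 * s ^ 2 * sinh s * cosh s -
        s * (cosh s ^ 2 + sinh s ^ 2) := by ring
  have e2 : cosh s ^ 2 - sinh s ^ 2 = 1 := cosh_sq_sub_sinh_sq s
  rw [e2] at e
  nlinarith

/-- `tanh (x / 2) sinh² x ≤ sinh x cosh x - x`. -/
theorem key_odd {s : ℝ} (hs : 0 ≤ s) :
    tanh s * sinh (2 * s) ^ 2 ≤ sinh (2 * s) * cosh (2 * s) - 2 * s := by
  have hc := cosh_pos s
  have h := le_sinh_cosh hs
  rw [tanh_eq_sinh_div_cosh, sinh_two_mul, cosh_two_mul]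
  have e : sinh s / cosh s * (2 * sinh s * cosh s) ^ 2 = 4 * sinh s ^ 3 * cosh s := by
    field_simp; ring
  rw [e]
  have e2 : cosh s ^ 2 = sinh s ^ 2 + 1 := cosh_sq s
  have e3 : 2 * sinh s * cosh s * (cosh s ^ 2 + sinh s ^ 2) - 2 * s - 4 * sinh s ^ 3 * cosh s =
      2 * (sinh s * cosh s - s) + 2 * sinh s * cosh s * (cosh s ^ 2 - (sinh s ^ 2 + 1)) := by ring
  rw [e2, sub_self, mul_zero, add_zero] at e3
  rw [e2]
  linarith

/-- Odd modes, `n ≥ 2`, short cylinder. -/
theorem odd_short {s : ℝ} (hs : 0 < s) {N : ℝ} (hN : 2 ≤ N) :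
    mu s * sinh (N * s) ^ 2 - nu s * N ^ 2 ≤ N * sinh (N * s) * cosh (N * s) := by
  have hnu : -s ≤ nu s := by
    unfold nu
    have := mu_pos hs
    nlinarith [sq_nonneg s]
  have h1 := key_odd (s := N * s / 2) (by positivity)
  rw [show 2 * (N * s / 2) = N * s by ring] at h1
  have h2 : tanh s ≤ tanh (N * s / 2) := tanh_mono' (by nlinarith)
  have h3 : mu s ≤ 2 * tanh s := mu_le_two_tanh hs.le
  have ht : 0 ≤ tanh s := by
    rw [tanh_eq_sinh_div_cosh]
    exact div_nonneg (sinh_nonneg_iff.2 hs.le) (cosh_pos _).le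
  have h4 : mu s ≤ N * tanh (N * s / 2) := by nlinarith
  have h5 : mu s * sinh (N * s) ^ 2 ≤ N * tanh (N * s / 2) * sinh (N * s) ^ 2 :=
    mul_le_mul_of_nonneg_right h4 (sq_nonneg _)
  have h6 : N * (tanh (N * s / 2) * sinh (N * s) ^ 2) ≤
      N * (sinh (N * s) * cosh (N * s) - N * s) :=
    mul_le_mul_of_nonneg_left h1 (by linarith)
  have h7 : -nu s * N ^ 2 ≤ s * N ^ 2 := mul_le_mul_of_nonneg_right (by linarith) (sq_nonneg _)
  nlinarith

/-- All odd modes. -/
theorem odd_mode {s : ℝ} (hs : 0 < s) {n : ℕ} (hn : 1 ≤ n) :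
    mu s * sinh (n * s) ^ 2 - nu s * (n : ℝ) ^ 2 ≤ n * sinh (n * s) * cosh (n * s) := by
  rcases Nat.lt_or_ge n 2 with h | h
  · obtain rfl : n = 1 := by omega
    have := odd_one hs.le
    simp only [Nat.cast_one, one_mul, one_pow, mul_one]
    linarith
  · exact odd_short hs (by exact_mod_cast h)

theorem tanh_nonneg' {s : ℝ} (hs : 0 ≤ s) : 0 ≤ tanh s := by
  rw [tanh_eq_sinh_div_cosh]
  exact div_nonneg (sinh_nonneg_iff.2 hs) (cosh_pos s).le


/-- The mode inequality for the amplitudes at the middle circle: `P = c(0)`, `Q = c'(0)/n`. -/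
theorem mode_ineq {s : ℝ} (hs : 0 < s) {n : ℕ} (hn : 1 ≤ n) {p q : ℝ} (hp : 0 ≤ p) (hq : 0 ≤ q) :
    mu s * (2 * (p * cosh (n * s) ^ 2 + q * sinh (n * s) ^ 2)) + 2 * nu s * (n ^ 2 * (p - q)) ≤
      2 * n * (p + q) * sinh (n * s) * cosh (n * s) := by
  have h1 := mul_le_mul_of_nonneg_left (even_mode hs hn) hp
  have h2 := mul_le_mul_of_nonneg_left (odd_mode hs hn) hq
  linarith

theorem hasDerivAt_phi (s : ℝ) :
    HasDerivAt phi (4 * (cosh s - s * sinh s) ^ 2 / dd s ^ 2) s := by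
  have h1 : HasDerivAt (fun s => sinh (2 * s) + 2 * s) (2 * cosh (2 * s) + 2) s := by
    have a : HasDerivAt (fun s : ℝ => 2 * s) 2 s := by
      simpa using (hasDerivAt_id s).const_mul (2 : ℝ)
    have := (a.sinh).add a
    refine this.congr_deriv ?_
    ring
  have h2 : HasDerivAt (fun s => cosh s ^ 2 + s ^ 2) (2 * cosh s * sinh s + 2 * s) s := by
    have a := (Real.hasDerivAt_cosh s).pow 2
    have b := hasDerivAt_pow 2 s
    have := a.add b
    refine this.congr_deriv ?_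
    simp
  have hd : cosh s ^ 2 + s ^ 2 ≠ 0 := (dd_pos s).ne'
  have h3 := h1.div h2 hd
  refine h3.congr_deriv ?_
  unfold dd
  rw [cosh_two_mul, sinh_two_mul]
  congr 1
  have e : sinh s ^ 2 = cosh s ^ 2 - 1 := by rw [cosh_sq s]; ring
  have e4 : 4 * (cosh s - s * sinh s) ^ 2 =
    4 * (cosh s ^ 2 - 2 * s * sinh s * cosh s + s ^ 2 * sinh s ^ 2) := by ring
  rw [e4]
  have e5 : (2 * (cosh s ^ 2 + sinh s ^ 2) + 2) * (cosh s ^ 2 + s ^ 2) -
      (2 * sinh s * cosh s + 2 * s) * (2 * cosh s * sinh s + 2 * s) =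
      (2 * (cosh s ^ 2 + sinh s ^ 2) + 2) * (cosh s ^ 2 + s ^ 2) -
      4 * (sinh s ^ 2 * cosh s ^ 2 + 2 * s * sinh s * cosh s + s ^ 2) := by ring
  rw [e5, e]
  ring

/-- the function whose zero is the half length `s_K` of the critical catenoid -/
theorem root_strictMono : StrictMonoOn (fun s : ℝ => s * sinh s - cosh s) (Set.Ici 0) := by
  apply strictMonoOn_of_deriv_pos (convex_Ici 0)
  · fun_prop
  · intro x hx
    rw [interior_Ici] at hx
    have h : HasDerivAt (fun s : ℝ => s * sinh s - cosh s) (x * cosh x) x := by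
      have := ((hasDerivAt_id x).mul (Real.hasDerivAt_sinh x)).sub (Real.hasDerivAt_cosh x)
      refine this.congr_deriv ?_
      simp only [id]; ring
    rw [h.deriv]
    exact mul_pos hx (cosh_pos x)

theorem exists_root : ∃ k : ℝ, 1 < k ∧ k < 2 ∧ k * sinh k = cosh k := by
  have hc : ContinuousOn (fun s : ℝ => s * sinh s - cosh s) (Set.Icc 1 2) := by fun_prop
  have h1 : (fun s : ℝ => s * sinh s - cosh s) 1 < 0 := by
    have := sinh_lt_cosh 1
    simp only [one_mul]; linarith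
  have h2 : 0 < (fun s : ℝ => s * sinh s - cosh s) 2 := by
    simp only
    rw [sinh_eq, cosh_eq]
    have h4 : exp (-2) < exp 2 / 3 := by
      have h5 : exp (-2) < 1 := by
        have := exp_neg_one_lt_d9
        have e : exp (-2) = exp (-1) * exp (-1) := by rw [← exp_add]; norm_num
        have := exp_pos (-1)
        rw [e]; nlinarith
      have h6 : 3 < exp 2 := by
        have := exp_one_gt_d9
        have e : exp 2 = exp 1 * exp 1 := by rw [← exp_add]; norm_num
        rw [e]; nlinarith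
      linarith
    linarith
  obtain ⟨k, hk, hk0⟩ := intermediate_value_Ioo (by norm_num : (1 : ℝ) ≤ 2) hc ⟨h1, h2⟩
  exact ⟨k, hk.1, hk.2, by simp only at hk0; linarith⟩

/-- `phi` is strictly increasing on `[0, ∞)`. -/
theorem phi_mono : StrictMonoOn phi (Set.Ici 0) := by
  obtain ⟨k, hk1, hk2, hk⟩ := exists_root
  have hk0 : 0 < k := by linarith
  have hcont : Continuous phi := by
    rw [continuous_iff_continuousAt]
    exact fun s => (hasDerivAt_phi s).continuousAt
  have hpos : ∀ x, 0 < x → x ≠ k → 0 < deriv phi x := by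
    intro x hx hxk
    rw [(hasDerivAt_phi x).deriv]
    have : cosh x - x * sinh x ≠ 0 := by
      intro h
      apply hxk
      apply root_strictMono.injOn (Set.mem_Ici.2 hx.le) (Set.mem_Ici.2 hk0.le)
      simp only
      linarith
    have hd := dd_pos x
    positivity
  have h1 : StrictMonoOn phi (Set.Icc 0 k) := by
    apply strictMonoOn_of_deriv_pos (convex_Icc 0 k) hcont.continuousOn
    intro x hx
    rw [interior_Icc] at hx
    exact hpos x hx.1 hx.2.ne
  have h2 : StrictMonoOn phi (Set.Ici k) := by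
    apply strictMonoOn_of_deriv_pos (convex_Ici k) hcont.continuousOn
    intro x hx
    rw [interior_Ici] at hx
    exact hpos x (hk0.trans hx) (ne_of_gt hx)
  have h3 := h1.union h2 (isGreatest_Icc hk0.le) isLeast_Ici
  rwa [Set.Icc_union_Ici_eq_Ici hk0.le] at h3

theorem phi_root {k : ℝ} (hk0 : 0 < k) (hk : k * sinh k = cosh k) : phi k = 2 / k := by
  have hs : 0 < sinh k := sinh_pos_iff.2 hk0
  unfold phi
  have hd := dd_pos k
  unfold dd at hd
  rw [div_eq_div_iff hd.ne' hk0.ne', sinh_two_mul]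
  have e : cosh k ^ 2 - sinh k ^ 2 = 1 := cosh_sq_sub_sinh_sq k
  have e2 : k * sinh k * cosh k = cosh k ^ 2 := by rw [hk]; ring
  nlinarith

end Pool.MP9f6534
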