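import Pool.Agent.Lib.MP_9f6534_gt.Component

open Real MeasureTheory Set Filter Topology
open scoped ComplexConjugate

namespace Pool.MP9f6534

/-- Wirtinger's inequality on the circle, with the mean. -/
theorem wirt {f f' : ℝ → ℝ} (hf : ∀ θ, HasDerivAt f (f' θ) θ) (hf' : Continuous f')
    (hper : f (2 * π) = f 0) :
    (2 * π)⁻¹ * (∫ θ in (0 : ℝ)..(2 * π), f θ ^ 2) -
      ((2 * π)⁻¹ * ∫ θ in (0 : ℝ)..(2 * π), f θ) ^ 2 ≤
    (2 * π)⁻¹ * ∫ θ in (0 : ℝ)..(2 * π), f' θ ^ 2 := by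
  have hfc : Continuous f := continuous_iff_continuousAt.2 fun θ => (hf θ).continuousAt
  have h1 := hasSum_fc hfc
  have h2 := hasSum_fc hf'
  have h3 := h2.sub h1
  have hge := sum_le_hasSum {(0 : ℤ)} (f := fun n : ℤ => ‖fc f' n‖ ^ 2 - ‖fc f n‖ ^ 2) (fun n hn => by
    have hn0 : n ≠ 0 := by simpa using hn
    have h : ‖fc f' n‖ ^ 2 = (n : ℝ) ^ 2 * ‖fc f n‖ ^ 2 := by
      rw [fc_deriv hf hf' hper, norm_mul, norm_mul, Complex.norm_I, one_mul, mul_pow]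
      congr 1
      rw [Complex.norm_intCast, sq_abs]
    have h1 : (1 : ℝ) ≤ (n : ℝ) ^ 2 := by
      have : (1 : ℤ) ≤ n ^ 2 := by
        have := Int.one_le_abs hn0
        rw [← sq_abs]; nlinarith
      exact_mod_cast this
    rw [h]
    nlinarith [sq_nonneg ‖fc f n‖]) h3
  rw [Finset.sum_singleton, fc_deriv hf hf' hper] at hge
  simp only [Int.cast_zero, mul_zero, zero_mul, norm_zero, ne_eq, OfNat.ofNat_ne_zero,
    not_false_eq_true, zero_pow, zero_sub] at hge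
  rw [fc_zero f, Complex.norm_real, Real.norm_eq_abs, sq_abs] at hge
  linarith

/-- The flux inequality for one component: bound of the derivative of the mean. -/
theorem Comp.flux {s : ℝ} {x xt xtt xr xrr : ℝ → ℝ → ℝ} (h : Comp s x xt xtt xr xrr)
    (hs : 0 < s) (hlong : 3 / 2 ≤ cosh s) :
    2 * ‖fc (x 0) 0‖ ^ 2 + 2 * (s ^ 2 + cosh s ^ 2) * ‖fc (xt 0) 0‖ ^ 2 +
      2 * cosh s ^ 2 * ((2 * π)⁻¹ * (∫ θ in (0 : ℝ)..(2 * π), xr 0 θ ^ 2) -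
        (2 * π)⁻¹ * ∫ θ in (0 : ℝ)..(2 * π), xt 0 θ ^ 2) ≤
    (2 * π)⁻¹ * (∫ θ in (0 : ℝ)..(2 * π), x s θ ^ 2) +
        (2 * π)⁻¹ * ∫ θ in (0 : ℝ)..(2 * π), x (-s) θ ^ 2 := by
  have h3 := hasSum_fc (cont_slice h.cx s)
  have h4 := hasSum_fc (cont_slice h.cx (-s))
  have h5 := hasSum_fc (cont_slice h.cxr 0)
  have h6 := hasSum_fc (cont_slice h.cxt 0)
  have hsum := (h3.add h4).sub ((h5.sub h6).mul_left (2 * cosh s ^ 2))
  have hge := sum_le_hasSum {(0 : ℤ)} (f := fun n : ℤ => ‖fc (x s) n‖ ^ 2 + ‖fc (x (-s)) n‖ ^ 2 -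
      2 * cosh s ^ 2 * (‖fc (xr 0) n‖ ^ 2 - ‖fc (xt 0) n‖ ^ 2)) (fun n hn => by
    have hn0 : n ≠ 0 := by simpa using hn
    have hm : 1 ≤ n.natAbs := Int.natAbs_pos.2 hn0
    set m := n.natAbs with hmdef
    have hmR : (0 : ℝ) < m := by exact_mod_cast hm
    have hsq : (n : ℂ) ^ 2 = ((m : ℝ) : ℂ) ^ 2 := by
      have : (n : ℤ) ^ 2 = (m : ℤ) ^ 2 := by rw [hmdef, Int.natAbs_sq]
      have h2 : ((n ^ 2 : ℤ) : ℂ) = (((m : ℤ) ^ 2 : ℤ) : ℂ) := by rw [this]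
      push_cast at h2 ⊢
      exact h2
    have key := ode_sol (c := fun t => fc (x t) n) (d := fun t => fc (xt t) n)
      (e := fun t => fc (xtt t) n) (N := m) hs.le hmR (h.deriv1 n) (h.deriv2 n)
      (fun t ht => by rw [h.fc_tt n t ht, hsq])
    obtain ⟨k1, -⟩ := key s ⟨by linarith, le_rfl⟩
    obtain ⟨k3, -⟩ := key (-s) ⟨le_rfl, by linarith⟩
    have k5 : ‖fc (xr 0) n‖ ^ 2 = (m : ℝ) ^ 2 * ‖fc (x 0) n‖ ^ 2 := by
      rw [h.fc_r, norm_mul, norm_mul, Complex.norm_I, one_mul, mul_pow]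
      congr 1
      rw [← norm_pow, hsq, norm_pow]
      simp
    have k6 : ‖fc (xt 0) n‖ ^ 2 = (m : ℝ) ^ 2 * ‖fc (xt 0) n / (m : ℝ)‖ ^ 2 := by
      rw [norm_div, div_pow]
      simp only [Complex.norm_real, Real.norm_eq_abs, sq_abs]
      field_simp
    rw [mul_neg, cosh_neg, sinh_neg] at k3
    rw [k1, k3, k5, k6]
    set P := fc (x 0) n
    set Q := fc (xt 0) n / ((m : ℝ) : ℂ)
    have e2 : ‖P * ((cosh (m * s) : ℝ) : ℂ) + Q * ((sinh (m * s) : ℝ) : ℂ)‖ ^ 2 +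
        ‖P * ((cosh (m * s) : ℝ) : ℂ) + Q * ((-sinh (m * s) : ℝ) : ℂ)‖ ^ 2 =
        2 * (‖P‖ ^ 2 * cosh (m * s) ^ 2 + ‖Q‖ ^ 2 * sinh (m * s) ^ 2) := by
      simp only [← Complex.normSq_eq_norm_sq, Complex.normSq_apply, Complex.mul_re,
        Complex.add_re, Complex.add_im, Complex.mul_im, Complex.ofReal_re, Complex.ofReal_im]
      ring
    rw [e2]
    have hc : (m : ℝ) * cosh s ≤ cosh (m * s) := by
      rcases hm.eq_or_lt with h1 | h2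
      · rw [← h1]; simp
      · exact nat_mul_cosh_le hs hlong m h2
    have hc0 := cosh_pos s
    have hcc : ((m : ℝ) * cosh s) ^ 2 ≤ cosh (m * s) ^ 2 :=
      pow_le_pow_left₀ (by positivity) hc 2
    have h7 : 0 ≤ ‖P‖ ^ 2 * (cosh (m * s) ^ 2 - ((m : ℝ) * cosh s) ^ 2) :=
      mul_nonneg (sq_nonneg _) (by linarith)
    have h8 : 0 ≤ ‖Q‖ ^ 2 * sinh (m * s) ^ 2 := by positivity
    have h9 : 0 ≤ cosh s ^ 2 * ((m : ℝ) ^ 2 * ‖Q‖ ^ 2) := by positivity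
    nlinarith) hsum
  have key := ode_zero (c := fun t => fc (x t) 0) (d := fun t => fc (xt t) 0)
    (e := fun t => fc (xtt t) 0) hs.le (h.deriv1 0) (h.deriv2 0)
    (fun t ht => by rw [h.fc_tt 0 t ht]; simp)
  obtain ⟨k1, -⟩ := key s ⟨by linarith, le_rfl⟩
  obtain ⟨k3, -⟩ := key (-s) ⟨le_rfl, by linarith⟩
  have k5 : fc (xr 0) 0 = 0 := by rw [h.fc_r]; simp
  rw [Finset.sum_singleton, k1, k3, k5] at hge
  have e : ‖fc (x 0) 0 + fc (xt 0) 0 * (s : ℂ)‖ ^ 2 +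
      ‖fc (x 0) 0 + fc (xt 0) 0 * ((-s : ℝ) : ℂ)‖ ^ 2 =
      2 * ‖fc (x 0) 0‖ ^ 2 + 2 * s ^ 2 * ‖fc (xt 0) 0‖ ^ 2 := by
    simp only [← Complex.normSq_eq_norm_sq, Complex.normSq_apply, Complex.mul_re,
      Complex.add_re, Complex.add_im, Complex.mul_im, Complex.ofReal_re, Complex.ofReal_im]
    ring
  rw [e] at hge
  simp only [norm_zero, ne_eq, OfNat.ofNat_ne_zero, not_false_eq_true, zero_pow] at hge
  linarith

/-- The means on the slices. -/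
theorem Comp.mean_lin {s : ℝ} {x xt xtt xr xrr : ℝ → ℝ → ℝ} (h : Comp s x xt xtt xr xrr)
    (hs : 0 < s) (t : ℝ) (ht : t ∈ Icc (-s) s) :
    (2 * π)⁻¹ * (∫ θ in (0 : ℝ)..(2 * π), x t θ) =
      (2 * π)⁻¹ * (∫ θ in (0 : ℝ)..(2 * π), x 0 θ) +
        t * ((2 * π)⁻¹ * ∫ θ in (0 : ℝ)..(2 * π), xt 0 θ) ∧
    (2 * π)⁻¹ * (∫ θ in (0 : ℝ)..(2 * π), xt t θ) =
      (2 * π)⁻¹ * ∫ θ in (0 : ℝ)..(2 * π), xt 0 θ := by
  have key := ode_zero (c := fun t => fc (x t) 0) (d := fun t => fc (xt t) 0)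
    (e := fun t => fc (xtt t) 0) hs.le (h.deriv1 0) (h.deriv2 0)
    (fun t ht => by rw [h.fc_tt 0 t ht]; simp) t ht
  simp only [fc_zero] at key
  obtain ⟨k1, k2⟩ := key
  constructor
  · have : (((2 * π)⁻¹ * (∫ θ in (0 : ℝ)..(2 * π), x t θ) : ℝ) : ℂ) =
      (((2 * π)⁻¹ * (∫ θ in (0 : ℝ)..(2 * π), x 0 θ) +
        t * ((2 * π)⁻¹ * ∫ θ in (0 : ℝ)..(2 * π), xt 0 θ) : ℝ) : ℂ) := by
      rw [k1]; push_cast; ring
    exact_mod_cast this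
  · exact_mod_cast k2

end Pool.MP9f6534
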